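import Mathlib

set_option autoImplicit false

/-!
Straight-line computations in a field with derivations: the number of steps.
-/

namespace Pool.Agent.Y640.FM

variable {F : Type} [Field F]

/-- the elements algebraic over a set -/
def acl (S : Set F) : Subfield F where
  carrier := {x | IsAlgebraic (Algebra.adjoin ℤ S) x}
  mul_mem' := fun ha hb => IsAlgebraic.mul ha hb
  one_mem' := isAlgebraic_one
  add_mem' := fun ha hb => IsAlgebraic.add ha hb
  zero_mem' := isAlgebraic_zero
  neg_mem' := fun ha => IsAlgebraic.neg ha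
  inv_mem' := fun _ ha => IsAlgebraic.inv ha

lemma subset_acl (S : Set F) : S ⊆ acl S := fun x hx =>
  isAlgebraic_algebraMap (⟨x, Algebra.subset_adjoin hx⟩ : Algebra.adjoin ℤ S)

lemma acl_mono [CharZero F] {S T : Set F} (h : S ⊆ T) : acl S ≤ acl T := by
  have hf : FaithfulSMul ℤ F :=
    (faithfulSMul_iff_algebraMap_injective ℤ F).2 (RingHom.injective_int _)
  have h1 := (AlgebraicIndependent.matroid ℤ F).closure_subset_closure h
  rw [AlgebraicIndependent.matroid_closure_eq, AlgebraicIndependent.matroid_closure_eq] at h1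
  intro x hx
  exact h1 hx

lemma card_le {σ : Type} [Fintype σ] {z : σ → F} (hz : AlgebraicIndependent ℤ z) (T : Finset F)
    (hs : ∀ i, z i ∈ acl (T : Set F)) : Fintype.card σ ≤ T.card := by
  have : FaithfulSMul ℤ F := (faithfulSMul_iff_algebraMap_injective ℤ F).2 hz.algebraMap_injective
  have h1 : (AlgebraicIndependent.matroid ℤ F).Indep (Set.range z) := by
    rw [AlgebraicIndependent.matroid_indep_iff]
    exact AlgebraicIndependent.to_subtype_range hz
  have h2 : Set.range z ⊆ (AlgebraicIndependent.matroid ℤ F).closure (T : Set F) := by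
    rw [AlgebraicIndependent.matroid_closure_eq]
    rintro _ ⟨i, rfl⟩
    exact hs i
  have h3 := h1.encard_le_eRk_of_subset h2
  rw [Matroid.eRk_closure_eq] at h3
  have h4 := h3.trans (Matroid.eRk_le_encard _ _)
  have h5 : (Set.range z).encard = Fintype.card σ := by
    rw [← Set.image_univ, hz.injective.encard_image]
    simp
  rw [h5, Set.encard_coe_eq_coe_finsetCard] at h4
  exact_mod_cast h4

/-- a derivation, as a plain map -/
structure IsDer (D : F → F) : Prop where
  add : ∀ x y, D (x + y) = D x + D y
  mul : ∀ x y, D (x * y) = x * D y + D x * y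

lemma IsDer.zero {D : F → F} (h : IsDer D) : D 0 = 0 := by
  have := h.add 0 0
  rw [add_zero] at this
  exact left_eq_add.1 this

lemma IsDer.one {D : F → F} (h : IsDer D) : D 1 = 0 := by
  have := h.mul 1 1
  rw [mul_one, one_mul, mul_one] at this
  exact left_eq_add.1 this

lemma IsDer.neg {D : F → F} (h : IsDer D) (x : F) : D (-x) = - D x := by
  have := h.add x (-x)
  rw [add_neg_cancel, h.zero] at this
  exact (neg_eq_of_add_eq_zero_right this.symm).symm

lemma IsDer.sub {D : F → F} (h : IsDer D) (x y : F) : D (x - y) = D x - D y := by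
  rw [sub_eq_add_neg, h.add, h.neg, sub_eq_add_neg]

lemma IsDer.inv {D : F → F} (h : IsDer D) (x : F) : D (x⁻¹) = - (x⁻¹ * x⁻¹ * D x) := by
  by_cases hx : x = 0
  · rw [hx, inv_zero, h.zero]; simp
  · have h1 := h.mul x x⁻¹
    rw [mul_inv_cancel₀ hx, h.one] at h1
    have h2 : x * D x⁻¹ = - (D x * x⁻¹) := eq_neg_of_add_eq_zero_left h1.symm
    have h3 : D x⁻¹ = x⁻¹ * (x * D x⁻¹) := by
      rw [← mul_assoc, inv_mul_cancel₀ hx, one_mul]
    rw [h3, h2]
    ring

lemma IsDer.div {D : F → F} (h : IsDer D) (x y : F) :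
    D (x / y) = y⁻¹ * D x + (-(x * (y⁻¹ * y⁻¹))) * D y := by
  rw [div_eq_mul_inv, h.mul, h.inv]
  ring

/-- operands available before step `s` -/
def IsOp {m : ℕ} (D : Fin m → F → F) (V : Fin m → F) (g : ℕ → F) (s : ℕ) (x : F) : Prop :=
  (∀ j, D j x = 0) ∨ (∃ l, x = V l) ∨ (∃ i < s, x = g i)

/-- one operation -/
def IsRes (x y z : F) : Prop := z = x + y ∨ z = x - y ∨ z = x * y ∨ z = x / y

lemma res_der {m : ℕ} {D : Fin m → F → F} (hD : ∀ j, IsDer (D j)) {x y z : F}
    (h : IsRes x y z) : ∃ μ ν : F,
      (∀ L : Subfield F, x ∈ L → y ∈ L → z ∈ L ∧ μ ∈ L ∧ ν ∈ L) ∧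
      ∀ j, D j z = μ * D j x + ν * D j y := by
  rcases h with rfl | rfl | rfl | rfl
  · refine ⟨1, 1, fun L hx hy => ⟨L.add_mem hx hy, L.one_mem, L.one_mem⟩, fun j => ?_⟩
    rw [(hD j).add]; ring
  · refine ⟨1, -1, fun L hx hy => ⟨L.sub_mem hx hy, L.one_mem, L.neg_mem L.one_mem⟩, fun j => ?_⟩
    rw [(hD j).sub]; ring
  · refine ⟨y, x, fun L hx hy => ⟨L.mul_mem hx hy, hy, hx⟩, fun j => ?_⟩
    rw [(hD j).mul]; ring
  · refine ⟨y⁻¹, -(x * (y⁻¹ * y⁻¹)), fun L hx hy => ⟨L.div_mem hx hy, L.inv_mem hy,
      L.neg_mem (L.mul_mem hx (L.mul_mem (L.inv_mem hy) (L.inv_mem hy)))⟩, fun j => ?_⟩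
    rw [(hD j).div]

/-- the gradient is a multiple of a vector over a small field -/
def Good {m : ℕ} (D : Fin m → F → F) (ρ : Finset F) (x : F) : Prop :=
  ∃ (a : F) (w : Fin m → F), (∀ j, w j ∈ acl (ρ : Set F)) ∧ ∀ j, D j x = a * w j

lemma Good.mono [CharZero F] {m : ℕ} {D : Fin m → F → F} {ρ ρ' : Finset F} (h : ρ ⊆ ρ') {x : F}
    (hx : Good D ρ x) : Good D ρ' x := by
  obtain ⟨a, w, h1, h2⟩ := hx
  exact ⟨a, w, fun j => acl_mono (Finset.coe_subset.2 h) (h1 j), h2⟩

theorem count [CharZero F] {m : ℕ} (D : Fin m → F → F) (hD : ∀ j, IsDer (D j)) (V : Fin m → F)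
    (hV : ∀ j l, D j (V l) = if l = j then 1 else 0) (n : ℕ) (g : ℕ → F)
    (hg : ∀ s < n, ∃ x y, IsOp D V g s x ∧ IsOp D V g s y ∧ IsRes x y (g s))
    (out : Fin m → F) (hout : ∀ i, IsOp D V g n (out i))
    (hind : AlgebraicIndependent ℤ
      (Sum.elim V (fun p : Fin m × Fin m => D p.2 (out p.1)) : Fin m ⊕ (Fin m × Fin m) → F)) :
    2 * m ^ 2 ≤ n + m := by
  classical
  set W : Finset F := Finset.univ.image V with hW
  have hWV : ∀ l, V l ∈ W := fun l => Finset.mem_image_of_mem _ (Finset.mem_univ _)
  have key : ∀ s ≤ n, ∃ c ρ : Finset F, c.card + ρ.card ≤ s ∧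
      ∀ i < s, (g i ∈ acl ((c ∪ W : Finset F) : Set F) ∧
        ∀ j, D j (g i) ∈ acl ((c ∪ W : Finset F) : Set F)) ∧ Good D ρ (g i) := by
    intro s
    induction s with
    | zero => intro _; exact ⟨∅, ∅, by simp, fun i hi => absurd hi (by omega)⟩
    | succ s ih =>
      intro hs
      obtain ⟨c, ρ, hcard, hinv⟩ := ih (by omega)
      obtain ⟨x, y, hx, hy, hr⟩ := hg s (by omega)
      obtain ⟨μ, ν, hμ, hder⟩ := res_der hD hr
      -- nonconstant operands are good
      have hop : ∀ z, IsOp D V g s z → ¬ (∀ j, D j z = 0) →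
          (z ∈ acl ((c ∪ W : Finset F) : Set F) ∧
            ∀ j, D j z ∈ acl ((c ∪ W : Finset F) : Set F)) ∧ Good D ρ z := by
        intro z hz hz0
        rcases hz with h | ⟨l, rfl⟩ | ⟨i, hi, rfl⟩
        · exact absurd h hz0
        · refine ⟨⟨subset_acl _ (by simp [hWV l]), fun j => ?_⟩, 1,
            fun j => if l = j then 1 else 0, fun j => ?_, fun j => ?_⟩
          · rw [hV]; split_ifs
            · exact Subfield.one_mem _
            · exact Subfield.zero_mem _
          · dsimp only
            split_ifs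
            · exact Subfield.one_mem _
            · exact Subfield.zero_mem _
          · rw [hV, one_mul]
        · exact hinv i hi
      have hmono : ∀ c' : Finset F, c ⊆ c' → acl ((c ∪ W : Finset F) : Set F) ≤
          acl ((c' ∪ W : Finset F) : Set F) := fun c' h =>
        acl_mono (Finset.coe_subset.2 (Finset.union_subset_union_left h))
      -- reduce to the new element
      have step : ∀ c' ρ' : Finset F, c ⊆ c' → ρ ⊆ ρ' → c'.card + ρ'.card ≤ s + 1 →
          (g s ∈ acl ((c' ∪ W : Finset F) : Set F)) →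
          (∀ j, D j (g s) ∈ acl ((c' ∪ W : Finset F) : Set F)) → Good D ρ' (g s) →
          ∃ c ρ : Finset F, c.card + ρ.card ≤ s + 1 ∧
            ∀ i < s + 1, (g i ∈ acl ((c ∪ W : Finset F) : Set F) ∧
              ∀ j, D j (g i) ∈ acl ((c ∪ W : Finset F) : Set F)) ∧ Good D ρ (g i) := by
        intro c' ρ' h1 h2 h3 h4 h5 h6
        refine ⟨c', ρ', h3, fun i hi => ?_⟩
        rcases Nat.lt_succ_iff_lt_or_eq.1 hi with h | rfl
        · exact ⟨⟨hmono c' h1 (hinv i h).1.1, fun j => hmono c' h1 ((hinv i h).1.2 j)⟩,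
            (hinv i h).2.mono h2⟩
        · exact ⟨⟨h4, h5⟩, h6⟩
      by_cases hx0 : ∀ j, D j x = 0
      · by_cases hy0 : ∀ j, D j y = 0
        · have h0 : ∀ j, D j (g s) = 0 := by
            intro j; rw [hder, hx0, hy0]; simp
          apply step (insert (g s) c) ρ (Finset.subset_insert _ _) subset_rfl
          · have := Finset.card_insert_le (g s) c
            omega
          · exact subset_acl _ (by simp)
          · intro j; rw [h0]; exact Subfield.zero_mem _
          · exact ⟨0, 0, fun j => Subfield.zero_mem _, fun j => by rw [h0]; simp⟩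
        · obtain ⟨⟨hy1, hy2⟩, a, w, hw, hyw⟩ := hop y hy hy0
          have hxL : x ∈ acl ((insert x c ∪ W : Finset F) : Set F) := subset_acl _ (by simp)
          have hyL := hmono (insert x c) (Finset.subset_insert _ _) hy1
          obtain ⟨h1, h2, h3⟩ := hμ _ hxL hyL
          apply step (insert x c) ρ (Finset.subset_insert _ _) subset_rfl
          · have := Finset.card_insert_le x c
            omega
          · exact h1
          · intro j
            rw [hder, hx0, mul_zero, zero_add]
            exact Subfield.mul_mem _ h3 (hmono _ (Finset.subset_insert _ _) (hy2 j))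
          · refine ⟨ν * a, w, hw, fun j => ?_⟩
            rw [hder, hx0, hyw]; ring
      · obtain ⟨⟨hx1, hx2⟩, a, w, hw, hxw⟩ := hop x hx hx0
        by_cases hy0 : ∀ j, D j y = 0
        · have hyL : y ∈ acl ((insert y c ∪ W : Finset F) : Set F) := subset_acl _ (by simp)
          have hxL := hmono (insert y c) (Finset.subset_insert _ _) hx1
          obtain ⟨h1, h2, h3⟩ := hμ _ hxL hyL
          apply step (insert y c) ρ (Finset.subset_insert _ _) subset_rfl
          · have := Finset.card_insert_le y c
            omega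
          · exact h1
          · intro j
            rw [hder, hy0, mul_zero, add_zero]
            exact Subfield.mul_mem _ h2 (hmono _ (Finset.subset_insert _ _) (hx2 j))
          · refine ⟨μ * a, w, hw, fun j => ?_⟩
            rw [hder, hy0, hxw]; ring
        · obtain ⟨⟨hy1, hy2⟩, b, u, hu, hyu⟩ := hop y hy hy0
          obtain ⟨h1, h2, h3⟩ := hμ _ hx1 hy1
          by_cases hμa : μ * a = 0
          · apply step c ρ subset_rfl subset_rfl (by omega) h1
            · intro j
              rw [hder]
              exact Subfield.add_mem _ (Subfield.mul_mem _ h2 (hx2 j))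
                (Subfield.mul_mem _ h3 (hy2 j))
            · refine ⟨ν * b, u, hu, fun j => ?_⟩
              rw [hder, hxw, hyu, ← mul_assoc, hμa]; ring
          · set r := ν * b / (μ * a) with hr'
            apply step c (insert r ρ) subset_rfl (Finset.subset_insert _ _)
            · have := Finset.card_insert_le r ρ
              omega
            · exact h1
            · intro j
              rw [hder]
              exact Subfield.add_mem _ (Subfield.mul_mem _ h2 (hx2 j))
                (Subfield.mul_mem _ h3 (hy2 j))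
            · refine ⟨μ * a, fun j => w j + r * u j, fun j => ?_, fun j => ?_⟩
              · have hm1 : acl (ρ : Set F) ≤ acl ((insert r ρ : Finset F) : Set F) :=
                  acl_mono (Finset.coe_subset.2 (Finset.subset_insert _ _))
                exact Subfield.add_mem _ (hm1 (hw j))
                  (Subfield.mul_mem _ (subset_acl _ (by simp)) (hm1 (hu j)))
              · have hr2 : μ * a * r = ν * b := by
                  rw [hr']; exact mul_div_cancel₀ _ hμa
                have hr3 : μ * (a * w j) + ν * (b * u j) = μ * a * w j + (ν * b) * u j := by ring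
                rw [hder, hxw, hyu, hr3, ← hr2]
                ring
  obtain ⟨c, ρ, hcard, hinv⟩ := key n le_rfl
  have hout1 : ∀ p : Fin m × Fin m, D p.2 (out p.1) ∈ acl ((c ∪ W : Finset F) : Set F) := by
    rintro ⟨i, j⟩
    dsimp only
    rcases hout i with h | ⟨l, h⟩ | ⟨t, ht, h⟩
    · rw [h j]; exact Subfield.zero_mem _
    · rw [h, hV]
      split_ifs
      · exact Subfield.one_mem _
      · exact Subfield.zero_mem _
    · rw [h]; exact (hinv t ht).1.2 j
  have hout2 : ∀ i, Good D ρ (out i) := by
    intro i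
    rcases hout i with h | ⟨l, h⟩ | ⟨t, ht, h⟩
    · exact ⟨0, 0, fun j => Subfield.zero_mem _, fun j => by rw [h]; simp⟩
    · refine ⟨1, fun j => if l = j then 1 else 0, fun j => ?_, fun j => ?_⟩
      · dsimp only
        split_ifs
        · exact Subfield.one_mem _
        · exact Subfield.zero_mem _
      · rw [h, hV, one_mul]
    · rw [h]; exact (hinv t ht).2
  choose sg w hw hsg using hout2
  have hA := card_le hind (c ∪ W) (by
    intro i
    cases i with
    | inl l => exact subset_acl _ (by simp [hWV l])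
    | inr p => exact hout1 p)
  have hind2 : AlgebraicIndependent ℤ (fun p : Fin m × Fin m => D p.2 (out p.1)) :=
    hind.comp (Sum.inr : Fin m × Fin m → _) Sum.inr_injective
  set T : Finset F := Finset.univ.image sg with hT
  have hB := card_le hind2 (ρ ∪ T) (by
    rintro ⟨i, j⟩
    dsimp only
    rw [hsg]
    apply Subfield.mul_mem
    · exact subset_acl _ (by
        rw [Finset.coe_union]
        exact Or.inr (Finset.mem_coe.2 (Finset.mem_image_of_mem _ (Finset.mem_univ _))))
    · exact acl_mono (by rw [Finset.coe_union]; exact Set.subset_union_left) (hw i j))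
  have hWc : W.card ≤ m := by
    refine Finset.card_image_le.trans ?_
    simp
  have hTc : T.card ≤ m := by
    refine Finset.card_image_le.trans ?_
    simp
  have h1 := Finset.card_union_le c W
  have h2 := Finset.card_union_le ρ T
  simp only [Fintype.card_sum, Fintype.card_prod, Fintype.card_fin] at hA hB
  have h3 : m ^ 2 = m * m := sq m
  omega

end Pool.Agent.Y640.FM
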