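import Mathlib
import Pool.Agent.H683R2.FourierA
import Pool.Agent.Y640.FM.Alg
import Pool.Agent.W602.GT.Der

set_option autoImplicit false

/-!
Partial derivatives at a generic point, and registers of straight-line programs.
-/

namespace Pool.Agent.Y640.FM

open Pool.Agent.H683R2.FS

/-- partial derivatives at a generic point -/
theorem exists_partials {m : ℕ} (K : Subfield ℂ) (V : Fin m → ℂ)
    (hV : AlgebraicIndependent K V) :
    ∃ D : Fin m → Derivation K ℂ ℂ, ∀ j l, D j (V l) = if l = j then 1 else 0 := by
  classical
  have h1 : AlgebraicIndepOn K id (Set.range V) := hV.to_subtype_range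
  obtain ⟨t, hst, ht⟩ := exists_isTranscendenceBasis_superset h1
  have h2 : ∀ j : Fin m, ∃ D : Derivation K ℂ ℂ, ∀ i : t, D (i : ℂ) =
      if (i : ℂ) = V j then 1 else 0 := fun j =>
    Pool.Agent.W602.GT.exists_der ((↑) : t → ℂ) ht (fun i => if (i : ℂ) = V j then 1 else 0)
  choose D hD using h2
  refine ⟨D, fun j l => ?_⟩
  rw [hD j ⟨V l, hst ⟨l, rfl⟩⟩]
  have h3 : (V l = V j) ↔ l = j := hV.injective.eq_iff
  simp only [h3]

lemma isDer_derivation {K : Subfield ℂ} (D : Derivation K ℂ ℂ) : IsDer (fun x => D x) := by
  constructor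
  · intro x y; exact map_add D x y
  · intro x y
    change D (x * y) = x * D y + D x * y
    rw [D.leibniz]
    simp only [smul_eq_mul]
    ring

lemma slp_getD_of_lt {m : ℕ} (v : Fin m → ℂ) (l : List (Ins m)) :
    ∀ (regs : List ℂ) (i : ℕ), i < regs.length → (slp v regs l).getD i 0 = regs.getD i 0 := by
  induction l with
  | nil => intro regs i _; rfl
  | cons x l ih =>
    intro regs i hi
    obtain ⟨o, a, b⟩ := x
    simp only [slp]
    rw [ih _ i (by simp; omega), List.getD_append _ _ _ _ hi]

/-- the constant part of an operand -/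
def cpart {m : ℕ} : Opd m → ℂ
  | .const c => c
  | .inp _ => 0
  | .reg _ => 0

/-- the registers of a straight-line program, as a computation with derivations with respect to
some of the inputs -/
theorem slp_steps {k m : ℕ} (K : Subfield ℂ) (V : Fin m → ℂ) (D : Fin m → Derivation K ℂ ℂ)
    (hD : ∀ j l, D j (V l) = if l = j then 1 else 0) (c : Fin k → Fin m)
    (ins : List (Ins m)) (hins : ∀ I ∈ ins, cpart I.2.1 ∈ K ∧ cpart I.2.2 ∈ K) :
    (∀ s < ins.length, ∃ x y,
      IsOp (fun j x => D (c j) x) (fun l => V (c l)) (fun s => (slp V [] ins).getD s 0) s x ∧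
      IsOp (fun j x => D (c j) x) (fun l => V (c l)) (fun s => (slp V [] ins).getD s 0) s y ∧
      IsRes x y ((slp V [] ins).getD s 0)) ∧
    ∀ a : Opd m, cpart a ∈ K → IsOp (fun j x => D (c j) x) (fun l => V (c l))
      (fun s => (slp V [] ins).getD s 0) ins.length (a.val V (slp V [] ins)) := by
  have hDK : ∀ j x, x ∈ K → D j x = 0 := fun j x hx => (D j).map_algebraMap ⟨x, hx⟩
  have hop : ∀ (s : ℕ) (a : Opd m) (regs : List ℂ), cpart a ∈ K →
      (∀ i, regs.getD i 0 = 0 ∨ (i < s ∧ regs.getD i 0 = (slp V [] ins).getD i 0)) →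
      IsOp (fun j x => D (c j) x) (fun l => V (c l)) (fun s => (slp V [] ins).getD s 0) s
        (a.val V regs) := by
    intro s a regs ha hr
    cases a with
    | const z => exact Or.inl fun j => hDK (c j) z ha
    | inp l =>
      by_cases hl : ∃ l', c l' = l
      · obtain ⟨l', rfl⟩ := hl
        exact Or.inr (Or.inl ⟨l', rfl⟩)
      · left
        intro j
        change D (c j) (V l) = 0
        rw [hD, if_neg]
        intro h
        exact hl ⟨j, h.symm⟩
    | reg i =>
      rcases hr i with h | ⟨h1, h2⟩
      · left
        intro j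
        change D (c j) (regs.getD i 0) = 0
        rw [h, map_zero]
      · exact Or.inr (Or.inr ⟨i, h1, h2⟩)
  constructor
  · intro s hs
    have hlen1 : (slp V [] (ins.take s)).length = s := by
      rw [slp_length, List.length_take]
      simp only [List.length_nil]
      omega
    have hregs : ∀ i, (slp V [] (ins.take s)).getD i 0 = 0 ∨
        (i < s ∧ (slp V [] (ins.take s)).getD i 0 = (slp V [] ins).getD i 0) := by
      intro i
      by_cases hi : i < s
      · right
        refine ⟨hi, ?_⟩
        have h2 : slp V [] ins = slp V (slp V [] (ins.take s)) (ins.drop s) := by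
          rw [← slp_append, List.take_append_drop]
        rw [h2]
        exact (slp_getD_of_lt _ _ _ _ (by rw [hlen1]; exact hi)).symm
      · left
        exact List.getD_eq_default _ _ (by omega)
    have hmem := hins _ (List.getElem_mem hs)
    refine ⟨_, _, hop s (ins[s]).2.1 (slp V [] (ins.take s)) hmem.1 hregs,
      hop s (ins[s]).2.2 (slp V [] (ins.take s)) hmem.2 hregs, ?_⟩
    have h4 : ins.take (s + 1) = ins.take s ++ [ins[s]] :=
      List.take_succ_eq_append_getElem hs
    have h2 : slp V [] ins = slp V (slp V [] (ins.take (s + 1))) (ins.drop (s + 1)) := by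
      rw [← slp_append, List.take_append_drop]
    have h5 : slp V [] (ins.take (s + 1)) = slp V [] (ins.take s) ++
        [((ins[s]).1).eval (((ins[s]).2.1).val V (slp V [] (ins.take s)))
          (((ins[s]).2.2).val V (slp V [] (ins.take s)))] := by
      rw [h4, slp_append]
      rfl
    have h1 : (slp V [] ins).getD s 0 =
        ((ins[s]).1).eval (((ins[s]).2.1).val V (slp V [] (ins.take s)))
          (((ins[s]).2.2).val V (slp V [] (ins.take s))) := by
      rw [h2, slp_getD_of_lt _ _ _ _ (by rw [h5]; simp [hlen1]), h5,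
        List.getD_append_right _ _ _ _ (by omega), hlen1]
      simp
    rw [h1]
    cases (ins[s]).1 with
    | add => exact Or.inl rfl
    | sub => exact Or.inr (Or.inl rfl)
    | mul => exact Or.inr (Or.inr (Or.inl rfl))
    | div => exact Or.inr (Or.inr (Or.inr rfl))
  · intro a ha
    apply hop _ _ _ ha
    intro i
    by_cases hi : i < ins.length
    · exact Or.inr ⟨hi, rfl⟩
    · left
      apply List.getD_eq_default
      rw [slp_length]
      simp only [List.length_nil]
      omega

end Pool.Agent.Y640.FM
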