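import Mathlib
import Pool.Agent.H683R2.FourierC

set_option autoImplicit false

/-!
Families of complex numbers without polynomial relations of small degree.
-/

namespace Pool.Agent.Y640.FM

open MvPolynomial

variable {σ : Type}

/-- no polynomial relation of degree at most `B` with rational coefficients -/
def Free (B : ℕ) (y : σ → ℂ) : Prop :=
  ∀ Q : MvPolynomial σ ℚ, Q.totalDegree ≤ B → aeval y Q = 0 → Q = 0

/-- the part of a polynomial over a set of exponents, with modified coefficients -/
noncomputable def part (S : Finset (σ →₀ ℕ)) (c : (σ →₀ ℕ) → ℚ) : MvPolynomial σ ℚ :=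
  ∑ e ∈ S, monomial e (c e)

lemma coeff_part (S : Finset (σ →₀ ℕ)) (c : (σ →₀ ℕ) → ℚ) (e : σ →₀ ℕ) [Decidable (e ∈ S)] :
    coeff e (part S c) = if e ∈ S then c e else 0 := by
  classical
  unfold part
  rw [coeff_sum]
  simp only [coeff_monomial]
  rw [Finset.sum_ite_eq']
  congr

lemma totalDegree_part (S : Finset (σ →₀ ℕ)) (c : (σ →₀ ℕ) → ℚ) (B : ℕ)
    (h : ∀ e ∈ S, (e.sum fun _ n => n) ≤ B) : (part S c).totalDegree ≤ B := by
  unfold part
  apply totalDegree_finsetSum_le
  intro e he
  exact (totalDegree_monomial_le _ _).trans (h e he)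

lemma aeval_part [Fintype σ] (S : Finset (σ →₀ ℕ)) (c : (σ →₀ ℕ) → ℚ) (y : σ → ℂ) :
    aeval y (part S c) = ∑ e ∈ S, (c e : ℂ) * ∏ p, y p ^ e p := by
  unfold part
  rw [map_sum]
  apply Finset.sum_congr rfl
  intro e _
  rw [aeval_monomial, Finsupp.prod_fintype _ _ (fun i => pow_zero _)]
  rfl

theorem free_scale [Fintype σ] {B : ℕ} {y : σ → ℂ} {s : ℂ} {r : ℚ} (hr : r ≠ 0) (hs : s ^ 2 = (r : ℂ))
    (h : Free (2 * B) y) : Free B (fun p => s * y p) := by
  classical
  intro q hqB h0
  by_contra hq
  have hs0 : s ≠ 0 := by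
    rintro rfl
    apply hr
    have : ((r : ℚ) : ℂ) = 0 := by rw [← hs]; simp
    exact_mod_cast this
  let dg : (σ →₀ ℕ) → ℕ := fun e => ∑ p, e p
  let c : (σ →₀ ℕ) → ℚ := fun e => coeff e q * r ^ (dg e / 2)
  set SA := q.support.filter (fun e => Even (dg e)) with hSA
  set SB := q.support.filter (fun e => ¬ Even (dg e)) with hSB
  have hval : aeval (R := ℚ) (fun p => s * y p) q =
      aeval y (part SA c) + s * aeval y (part SB c) := by
    rw [aeval_def, eval₂_eq']
    rw [← Finset.sum_filter_add_sum_filter_not q.support (fun e => Even (dg e))]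
    rw [aeval_part, aeval_part]
    have hmon : ∀ e : σ →₀ ℕ, ∏ p, (s * y p) ^ e p = s ^ dg e * ∏ p, y p ^ e p := by
      intro e
      rw [← Finset.prod_pow_eq_pow_sum, ← Finset.prod_mul_distrib]
      exact Finset.prod_congr rfl fun p _ => mul_pow _ _ _
    congr 1
    · apply Finset.sum_congr rfl
      intro e he
      rw [hmon]
      obtain ⟨t, ht⟩ := (Finset.mem_filter.1 he).2
      have h1 : dg e / 2 = t := by omega
      have h2 : s ^ dg e = (r : ℂ) ^ t := by
        rw [ht, ← two_mul, pow_mul, hs]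
      simp only [c, h1, h2]
      push_cast
      have h3 : (algebraMap ℚ ℂ) (coeff e q) = ((coeff e q : ℚ) : ℂ) := rfl
      rw [h3]
      ring
    · rw [Finset.mul_sum]
      apply Finset.sum_congr rfl
      intro e he
      rw [hmon]
      obtain ⟨t, ht⟩ := Nat.not_even_iff_odd.1 (Finset.mem_filter.1 he).2
      have h1 : dg e / 2 = t := by omega
      have h2 : s ^ dg e = s * (r : ℂ) ^ t := by
        rw [ht, pow_succ, pow_mul, hs]; ring
      simp only [c, h1, h2]
      push_cast
      have h3 : (algebraMap ℚ ℂ) (coeff e q) = ((coeff e q : ℚ) : ℂ) := rfl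
      rw [h3]
      ring
  rw [h0] at hval
  have hdeg : ∀ e ∈ q.support, (e.sum fun _ n => n) ≤ B := fun e he =>
    (le_totalDegree he).trans hqB
  have hdA : (part SA c).totalDegree ≤ B := totalDegree_part _ _ _ fun e he =>
    hdeg e (Finset.mem_filter.1 he).1
  have hdB : (part SB c).totalDegree ≤ B := totalDegree_part _ _ _ fun e he =>
    hdeg e (Finset.mem_filter.1 he).1
  have hQ : part SA c ^ 2 - C r * part SB c ^ 2 = 0 := by
    apply h
    · refine (totalDegree_sub _ _).trans ?_
      have h1 : (part SA c ^ 2).totalDegree ≤ 2 * B :=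
        (totalDegree_pow _ _).trans (Nat.mul_le_mul_left _ hdA)
      have h2 : (C r * part SB c ^ 2).totalDegree ≤ 2 * B := by
        refine (totalDegree_mul _ _).trans ?_
        rw [totalDegree_C, zero_add]
        exact (totalDegree_pow _ _).trans (Nat.mul_le_mul_left _ hdB)
      exact max_le h1 h2
    · rw [map_sub, map_mul, map_pow, map_pow, aeval_C]
      have h1 : aeval y (part SA c) = - (s * aeval y (part SB c)) :=
        eq_neg_of_add_eq_zero_left hval.symm
      rw [h1]
      have h2 : (algebraMap ℚ ℂ) r = s ^ 2 := by rw [hs]; rfl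
      rw [h2]
      ring
  -- over the complex numbers
  set A' : MvPolynomial σ ℂ := map (algebraMap ℚ ℂ) (part SA c) with hA'
  set B' : MvPolynomial σ ℂ := map (algebraMap ℚ ℂ) (part SB c) with hB'
  have h3 : (A' - C s * B') * (A' + C s * B') = 0 := by
    have h4 := congrArg (map (algebraMap ℚ ℂ)) hQ
    rw [map_sub, map_mul, map_pow, map_pow, map_zero, map_C] at h4
    have h2 : (algebraMap ℚ ℂ) r = s ^ 2 := by rw [hs]; rfl
    rw [h2, C_pow] at h4
    rw [← h4]
    ring
  have hzero : ∀ e, coeff e (part SA c) = 0 ∧ coeff e (part SB c) = 0 := by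
    intro e
    have hor : coeff e A' = s * coeff e B' ∨ coeff e A' = - (s * coeff e B') := by
      rcases mul_eq_zero.1 h3 with h4 | h4
      · left
        have := congrArg (coeff e) h4
        rw [coeff_sub, coeff_C_mul, coeff_zero] at this
        exact sub_eq_zero.1 this
      · right
        have := congrArg (coeff e) h4
        rw [coeff_add, coeff_C_mul, coeff_zero] at this
        exact eq_neg_of_add_eq_zero_left this
    have hcA : coeff e A' = ((coeff e (part SA c) : ℚ) : ℂ) := by
      rw [hA', coeff_map]; rfl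
    have hcB : coeff e B' = ((coeff e (part SB c) : ℚ) : ℂ) := by
      rw [hB', coeff_map]; rfl
    by_cases he : Even (dg e)
    · have hB0 : coeff e (part SB c) = 0 := by
        rw [coeff_part, if_neg]
        rw [hSB, Finset.mem_filter]
        exact fun h => h.2 he
      refine ⟨?_, hB0⟩
      rw [hcA, hcB, hB0] at hor
      have : ((coeff e (part SA c) : ℚ) : ℂ) = 0 := by
        rcases hor with h | h <;> rw [h] <;> simp
      exact_mod_cast this
    · have hA0 : coeff e (part SA c) = 0 := by
        rw [coeff_part, if_neg]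
        rw [hSA, Finset.mem_filter]
        exact fun h => he h.2
      refine ⟨hA0, ?_⟩
      rw [hcA, hcB, hA0] at hor
      have : s * ((coeff e (part SB c) : ℚ) : ℂ) = 0 := by
        rcases hor with h | h
        · rw [← h]; simp
        · rw [← neg_eq_zero, ← h]; simp
      have h5 := (mul_eq_zero.1 this).resolve_left hs0
      exact_mod_cast h5
  obtain ⟨e, he⟩ := MvPolynomial.support_nonempty.2 hq
  have hce : c e ≠ 0 := by
    exact mul_ne_zero (mem_support_iff.1 he) (pow_ne_zero _ hr)
  by_cases hev : Even (dg e)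
  · have := (hzero e).1
    rw [coeff_part, if_pos (Finset.mem_filter.2 ⟨he, hev⟩)] at this
    exact hce this
  · have := (hzero e).2
    rw [coeff_part, if_pos (Finset.mem_filter.2 ⟨he, hev⟩)] at this
    exact hce this

/-- the univariate polynomial -/
lemma exists_uni [Fintype σ] (Q : MvPolynomial σ ℚ) (n : σ → ℕ) (ε : (σ →₀ ℕ) → ℕ) (ω : ℂ)
    (hω : ∀ e ∈ Q.support, ω ^ (∑ p, n p * e p) = ω ^ ε e)
    (hinj : ∀ e ∈ Q.support, ∀ e' ∈ Q.support, ε e = ε e' → e = e') :
    ∃ P : Polynomial ℚ, Polynomial.aeval ω P = aeval (fun p => ω ^ n p) Q ∧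
      (∀ e ∈ Q.support, P.coeff (ε e) = coeff e Q) ∧
      ∀ t, (∀ e ∈ Q.support, ε e ≠ t) → P.coeff t = 0 := by
  classical
  refine ⟨∑ e ∈ Q.support, Polynomial.C (coeff e Q) * Polynomial.X ^ ε e, ?_, ?_, ?_⟩
  · rw [map_sum, aeval_def, eval₂_eq']
    apply Finset.sum_congr rfl
    intro e he
    rw [map_mul, map_pow, Polynomial.aeval_C, Polynomial.aeval_X, ← hω e he,
      ← Finset.prod_pow_eq_pow_sum]
    congr 1
    exact Finset.prod_congr rfl fun p _ => pow_mul _ _ _
  · intro e he
    rw [Polynomial.finsetSum_coeff, Finset.sum_eq_single e]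
    · simp
    · intro b hb hbe
      rw [Polynomial.coeff_C_mul, Polynomial.coeff_X_pow, if_neg, mul_zero]
      intro h
      exact hbe (hinj e he b hb h).symm
    · intro h; exact absurd he h
  · intro t ht
    rw [Polynomial.finsetSum_coeff]
    apply Finset.sum_eq_zero
    intro e he
    rw [Polynomial.coeff_C_mul, Polynomial.coeff_X_pow, if_neg (fun h => ht e he h.symm), mul_zero]

/-- distinct exponents below the degree of the cyclotomic polynomial -/
theorem free_of_lt [Fintype σ] {B d : ℕ} {n : σ → ℕ} {ω : ℂ} (hd : 0 < d) (hω : IsPrimitiveRoot ω d)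
    (hlt : ∀ e : σ →₀ ℕ, (∀ p, e p ≤ B) → ∑ p, n p * e p < d.totient)
    (hinj : ∀ e e' : σ →₀ ℕ, (∀ p, e p ≤ B) → (∀ p, e' p ≤ B) →
      ∑ p, n p * e p = ∑ p, n p * e' p → e = e') :
    Free B (fun p => ω ^ n p) := by
  classical
  intro Q hQ hQ0
  have hle : ∀ e ∈ Q.support, ∀ p, e p ≤ B := fun e he p =>
    ((monomial_le_degreeOf p he).trans (degreeOf_le_totalDegree Q p)).trans hQ
  obtain ⟨P, hP1, hP2, hP3⟩ := exists_uni Q n (fun e => ∑ p, n p * e p) ω (fun e _ => rfl)
    (fun e he e' he' h => hinj e e' (hle e he) (hle e' he') h)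
  rw [hQ0] at hP1
  have hPz : P = 0 := by
    by_contra hP0
    have h2 := Polynomial.natDegree_le_of_dvd (minpoly.dvd ℚ ω hP1) hP0
    rw [← Polynomial.cyclotomic_eq_minpoly_rat hω hd, Polynomial.natDegree_cyclotomic] at h2
    have h3 : P.coeff P.natDegree = 0 := by
      apply hP3
      intro e he h
      have := hlt e (hle e he)
      omega
    exact hP0 (Polynomial.leadingCoeff_eq_zero.1 h3)
  ext e
  rw [coeff_zero]
  by_contra hce
  have he : e ∈ Q.support := mem_support_iff.2 hce
  have := hP2 e he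
  rw [hPz, Polynomial.coeff_zero] at this
  exact hce this.symm

/-- distinct exponents modulo a prime -/
theorem free_of_mod [Fintype σ] [Nonempty σ] {B d : ℕ} {n : σ → ℕ} {ω : ℂ} (hd : d.Prime)
    (hω : IsPrimitiveRoot ω d)
    (hinj : ∀ e e' : σ →₀ ℕ, (∀ p, e p ≤ B + 1) → (∀ p, e' p ≤ B + 1) →
      (∑ p, n p * e p) % d = (∑ p, n p * e' p) % d → e = e') :
    Free B (fun p => ω ^ n p) := by
  classical
  intro Q hQ hQ0
  have hle : ∀ e ∈ Q.support, ∀ p, e p ≤ B := fun e he p =>
    ((monomial_le_degreeOf p he).trans (degreeOf_le_totalDegree Q p)).trans hQ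
  have hmod : ∀ a : ℕ, ω ^ a = ω ^ (a % d) := by
    intro a
    conv_lhs => rw [← Nat.div_add_mod a d]
    rw [pow_add, pow_mul, hω.pow_eq_one, one_pow, one_mul]
  obtain ⟨P, hP1, hP2, hP3⟩ := exists_uni Q n (fun e => (∑ p, n p * e p) % d) ω
    (fun e _ => hmod _)
    (fun e he e' he' h => hinj e e' (fun p => (hle e he p).trans (Nat.le_succ _))
      (fun p => (hle e' he' p).trans (Nat.le_succ _)) h)
  rw [hQ0] at hP1
  have hPz : P = 0 := by
    by_contra hP0
    have hdvd : Polynomial.cyclotomic d ℚ ∣ P := by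
      rw [Polynomial.cyclotomic_eq_minpoly_rat hω hd.pos]
      exact minpoly.dvd ℚ ω hP1
    obtain ⟨T, hT⟩ := hdvd
    have hT0 : T ≠ 0 := by rintro rfl; exact hP0 (by rw [hT, mul_zero])
    have hdeg : P.natDegree < d := by
      by_contra hge
      have h3 : P.coeff P.natDegree = 0 := by
        apply hP3
        intro e he h
        have := Nat.mod_lt (∑ p, n p * e p) hd.pos
        omega
      exact hP0 (Polynomial.leadingCoeff_eq_zero.1 h3)
    have hdT : T.natDegree = 0 := by
      have h4 := congrArg Polynomial.natDegree hT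
      rw [Polynomial.natDegree_mul (Polynomial.cyclotomic_ne_zero _ _) hT0,
        Polynomial.natDegree_cyclotomic, Nat.totient_prime hd] at h4
      have := hd.pos
      omega
    rw [Polynomial.eq_C_of_natDegree_eq_zero hdT] at hT
    set κ := T.coeff 0 with hκ
    obtain ⟨p0⟩ := ‹Nonempty σ›
    set e0 : σ →₀ ℕ := Finsupp.single p0 (B + 1) with he0
    have he0B : ∀ p, e0 p ≤ B + 1 := by
      intro p
      rw [he0, Finsupp.single_apply]
      split_ifs <;> omega
    have h5 : P.coeff ((∑ p, n p * e0 p) % d) = 0 := by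
      apply hP3
      intro e he h
      have h6 := hinj e e0 (fun p => (hle e he p).trans (Nat.le_succ _)) he0B h
      have h7 := hle e he p0
      rw [h6, he0, Finsupp.single_eq_same] at h7
      omega
    rw [hT, Polynomial.coeff_mul_C] at h5
    have : Fact d.Prime := ⟨hd⟩
    rw [Polynomial.cyclotomic_prime ℚ d, Polynomial.finsetSum_coeff] at h5
    have h8 : ∑ b ∈ Finset.range d,
        (Polynomial.X ^ b : Polynomial ℚ).coeff ((∑ p, n p * e0 p) % d) = 1 := by
      simp only [Polynomial.coeff_X_pow]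
      rw [Finset.sum_ite_eq, if_pos (Finset.mem_range.2 (Nat.mod_lt _ hd.pos))]
    rw [h8, one_mul] at h5
    apply hP0
    rw [hT, h5, map_zero, mul_zero]
  ext e
  rw [coeff_zero]
  by_contra hce
  have he : e ∈ Q.support := mem_support_iff.2 hce
  have := hP2 e he
  rw [hPz, Polynomial.coeff_zero] at this
  exact hce this.symm

end Pool.Agent.Y640.FM
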