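import Mathlib

set_option autoImplicit false

/-!
Spans of monomials of bounded degree in finitely many complex numbers, and quotients of their
elements; relations by counting dimensions.
-/

namespace Pool.Agent.Y640.FM

/-- the generating set -/
def monSet (T : Finset ℂ) (D : ℕ) : Set ℂ :=
  {x | ∃ e : ℂ → ℕ, ∑ t ∈ T, e t ≤ D ∧ x = ∏ t ∈ T, t ^ e t}

/-- span of the monomials of degree at most `D` in the elements of `T` -/
noncomputable def W (T : Finset ℂ) (D : ℕ) : Submodule ℚ ℂ := Submodule.span ℚ (monSet T D)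

lemma W_mono {T T' : Finset ℂ} {D D' : ℕ} (hT : T ⊆ T') (hD : D ≤ D') : W T D ≤ W T' D' := by
  classical
  apply Submodule.span_mono
  rintro x ⟨e, he, rfl⟩
  refine ⟨fun t => if t ∈ T then e t else 0, ?_, ?_⟩
  · rw [Finset.sum_ite_mem, Finset.inter_eq_right.2 hT]
    exact he.trans hD
  · rw [← Finset.prod_subset hT]
    · apply Finset.prod_congr rfl
      intro t ht
      dsimp only
      rw [if_pos ht]
    · intro t _ ht
      dsimp only
      rw [if_neg ht, pow_zero]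

lemma one_mem_W (T : Finset ℂ) (D : ℕ) : (1 : ℂ) ∈ W T D :=
  Submodule.subset_span ⟨fun _ => 0, by simp, by simp⟩

lemma self_mem_W {T : Finset ℂ} {t : ℂ} (ht : t ∈ T) {D : ℕ} (hD : 1 ≤ D) : t ∈ W T D := by
  classical
  apply Submodule.subset_span
  refine ⟨fun s => if s = t then 1 else 0, ?_, ?_⟩
  · rw [Finset.sum_ite_eq', if_pos ht]; exact hD
  · rw [Finset.prod_eq_single t]
    · simp
    · intro b _ hb
      dsimp only
      rw [if_neg hb, pow_zero]
    · intro h; exact absurd ht h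

lemma mul_mem_W {T : Finset ℂ} {D D' : ℕ} {x y : ℂ} (hx : x ∈ W T D) (hy : y ∈ W T D') :
    x * y ∈ W T (D + D') := by
  unfold W at hx hy ⊢
  induction hx, hy using Submodule.span_induction₂ with
  | mem_mem x y hx hy =>
    obtain ⟨e, he, rfl⟩ := hx
    obtain ⟨e', he', rfl⟩ := hy
    apply Submodule.subset_span
    refine ⟨fun t => e t + e' t, ?_, ?_⟩
    · rw [Finset.sum_add_distrib]; omega
    · rw [← Finset.prod_mul_distrib]
      exact Finset.prod_congr rfl fun t _ => (pow_add _ _ _).symm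
  | zero_left y hy => rw [zero_mul]; exact Submodule.zero_mem _
  | zero_right x hx => rw [mul_zero]; exact Submodule.zero_mem _
  | add_left x y z hx hy hz h1 h2 => rw [add_mul]; exact Submodule.add_mem _ h1 h2
  | add_right x y z hx hy hz h1 h2 => rw [mul_add]; exact Submodule.add_mem _ h1 h2
  | smul_left r x y hx hy h => rw [smul_mul_assoc]; exact Submodule.smul_mem _ _ h
  | smul_right r x y hx hy h => rw [mul_smul_comm]; exact Submodule.smul_mem _ _ h

lemma pow_mem_W {T : Finset ℂ} {D : ℕ} {x : ℂ} (hx : x ∈ W T D) (k : ℕ) :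
    x ^ k ∈ W T (k * D) := by
  induction k with
  | zero => rw [pow_zero]; exact one_mem_W _ _
  | succ k ih =>
    rw [pow_succ, Nat.succ_mul]
    exact mul_mem_W ih hx

lemma prod_mem_W {ι : Type} {T : Finset ℂ} {D : ℕ} (s : Finset ι) (f : ι → ℂ)
    (h : ∀ i ∈ s, f i ∈ W T D) : ∏ i ∈ s, f i ∈ W T (s.card * D) := by
  classical
  induction s using Finset.induction_on with
  | empty => simp only [Finset.prod_empty]; exact one_mem_W _ _
  | insert a s ha ih =>
    rw [Finset.prod_insert ha, Finset.card_insert_of_notMem ha, Nat.succ_mul, Nat.add_comm]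
    exact mul_mem_W (h a (Finset.mem_insert_self _ _))
      (ih fun i hi => h i (Finset.mem_insert_of_mem hi))

lemma W_le_span (T : Finset ℂ) (D : ℕ) : W T D ≤ Submodule.span ℚ
    (Set.range fun e : {t // t ∈ T} → Fin (D + 1) => ∏ t : {t // t ∈ T}, (t : ℂ) ^ (e t : ℕ)) := by
  apply Submodule.span_mono
  rintro x ⟨e, he, rfl⟩
  have hle : ∀ t ∈ T, e t ≤ D := fun t ht =>
    (Finset.single_le_sum (fun _ _ => Nat.zero_le _) ht).trans he
  refine ⟨fun t => ⟨e t, Nat.lt_succ_of_le (hle t t.2)⟩, ?_⟩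
  dsimp only
  rw [Finset.prod_coe_sort T (fun t => t ^ e t)]

instance W_finite (T : Finset ℂ) (D : ℕ) : Module.Finite ℚ (W T D) := by
  have h1 : Module.Finite ℚ (Submodule.span ℚ
    (Set.range fun e : {t // t ∈ T} → Fin (D + 1) => ∏ t : {t // t ∈ T}, (t : ℂ) ^ (e t : ℕ))) :=
    FiniteDimensional.span_of_finite ℚ (Set.finite_range _)
  exact Submodule.finiteDimensional_of_le (W_le_span T D)

lemma finrank_W (T : Finset ℂ) (D : ℕ) : Module.finrank ℚ (W T D) ≤ (D + 1) ^ T.card := by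
  have h1 : Module.Finite ℚ (Submodule.span ℚ
    (Set.range fun e : {t // t ∈ T} → Fin (D + 1) => ∏ t : {t // t ∈ T}, (t : ℂ) ^ (e t : ℕ))) :=
    FiniteDimensional.span_of_finite ℚ (Set.finite_range _)
  refine (Submodule.finrank_mono (W_le_span T D)).trans ?_
  refine (finrank_range_le_card _).trans ?_
  rw [Fintype.card_fun, Fintype.card_fin, Fintype.card_coe]

/-- quotients of two elements of `W T D` -/
def Rep (T : Finset ℂ) (D : ℕ) (x : ℂ) : Prop :=
  ∃ p q : ℂ, p ∈ W T D ∧ q ∈ W T D ∧ q ≠ 0 ∧ x = p / q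

lemma Rep.mono {T T' : Finset ℂ} {D D' : ℕ} (hT : T ⊆ T') (hD : D ≤ D') {x : ℂ}
    (h : Rep T D x) : Rep T' D' x := by
  obtain ⟨p, q, hp, hq, hq0, rfl⟩ := h
  exact ⟨p, q, W_mono hT hD hp, W_mono hT hD hq, hq0, rfl⟩

lemma Rep.of_mem {T : Finset ℂ} {D : ℕ} {x : ℂ} (h : x ∈ W T D) : Rep T D x :=
  ⟨x, 1, h, one_mem_W _ _, one_ne_zero, by simp⟩

lemma Rep.zero (T : Finset ℂ) (D : ℕ) : Rep T D 0 := Rep.of_mem (Submodule.zero_mem _)

lemma Rep.one (T : Finset ℂ) (D : ℕ) : Rep T D 1 := Rep.of_mem (one_mem_W _ _)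

lemma Rep.neg {T : Finset ℂ} {D : ℕ} {x : ℂ} (h : Rep T D x) : Rep T D (-x) := by
  obtain ⟨p, q, hp, hq, hq0, rfl⟩ := h
  exact ⟨-p, q, Submodule.neg_mem _ hp, hq, hq0, (neg_div _ _).symm⟩

lemma Rep.mul {T : Finset ℂ} {D D' : ℕ} {x y : ℂ} (hx : Rep T D x) (hy : Rep T D' y) :
    Rep T (D + D') (x * y) := by
  obtain ⟨p, q, hp, hq, hq0, rfl⟩ := hx
  obtain ⟨p', q', hp', hq', hq0', rfl⟩ := hy
  exact ⟨p * p', q * q', mul_mem_W hp hp', mul_mem_W hq hq', mul_ne_zero hq0 hq0',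
    div_mul_div_comm _ _ _ _⟩

lemma Rep.add {T : Finset ℂ} {D D' : ℕ} {x y : ℂ} (hx : Rep T D x) (hy : Rep T D' y) :
    Rep T (D + D') (x + y) := by
  obtain ⟨p, q, hp, hq, hq0, rfl⟩ := hx
  obtain ⟨p', q', hp', hq', hq0', rfl⟩ := hy
  exact ⟨p * q' + q * p', q * q', Submodule.add_mem _ (mul_mem_W hp hq') (mul_mem_W hq hp'),
    mul_mem_W hq hq', mul_ne_zero hq0 hq0', div_add_div _ _ hq0 hq0'⟩

lemma Rep.sub {T : Finset ℂ} {D D' : ℕ} {x y : ℂ} (hx : Rep T D x) (hy : Rep T D' y) :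
    Rep T (D + D') (x - y) := by
  rw [sub_eq_add_neg]; exact hx.add hy.neg

lemma Rep.inv {T : Finset ℂ} {D : ℕ} {x : ℂ} (h : Rep T D x) : Rep T D x⁻¹ := by
  obtain ⟨p, q, hp, hq, hq0, rfl⟩ := h
  by_cases hp0 : p = 0
  · rw [hp0, zero_div, inv_zero]; exact Rep.zero _ _
  · exact ⟨q, p, hq, hp, hp0, inv_div _ _⟩

lemma Rep.div {T : Finset ℂ} {D D' : ℕ} {x y : ℂ} (hx : Rep T D x) (hy : Rep T D' y) :
    Rep T (D + D') (x / y) := by
  rw [div_eq_mul_inv]; exact hx.mul hy.inv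

/-- a polynomial relation, by counting dimensions -/
theorem relation {ι : Type} [Fintype ι] [DecidableEq ι] (z : ι → ℂ) (T : Finset ℂ) (D E : ℕ)
    (hz : ∀ i, Rep T D (z i))
    (h : (Fintype.card ι * (E * D) + 1) ^ T.card < (E + 1) ^ (Fintype.card ι)) :
    ∃ κ : (ι → Fin (E + 1)) → ℚ, κ ≠ 0 ∧ ∑ e, (κ e : ℂ) * ∏ i, z i ^ (e i : ℕ) = 0 := by
  choose p q hp hq hq0 hpq using hz
  let b : (ι → Fin (E + 1)) → ℂ := fun e => ∏ i, (p i ^ (e i : ℕ) * q i ^ (E - (e i : ℕ)))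
  have hb : ∀ e, b e ∈ W T (Fintype.card ι * (E * D)) := by
    intro e
    apply prod_mem_W (Finset.univ : Finset ι)
    intro i _
    have h1 := mul_mem_W (pow_mem_W (hp i) (e i : ℕ)) (pow_mem_W (hq i) (E - (e i : ℕ)))
    have h2 : (e i : ℕ) * D + (E - (e i : ℕ)) * D = E * D := by
      rw [← add_mul]
      congr 1
      have := (e i).2
      omega
    rw [h2] at h1
    exact h1
  have hnl : ¬ LinearIndependent ℚ b := by
    intro hli
    have h1 : LinearIndependent ℚ (fun e => (⟨b e, hb e⟩ : W T (Fintype.card ι * (E * D)))) :=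
      LinearIndependent.of_comp (W T (Fintype.card ι * (E * D))).subtype hli
    have h2 := h1.fintype_card_le_finrank
    rw [Fintype.card_fun, Fintype.card_fin] at h2
    have h3 := h2.trans (finrank_W _ _)
    omega
  obtain ⟨κ, hκ, e0, he0⟩ := Fintype.not_linearIndependent_iff.1 hnl
  refine ⟨κ, fun h0 => he0 (by rw [h0]; rfl), ?_⟩
  have hprod : (∏ i, q i ^ E) ≠ 0 := Finset.prod_ne_zero_iff.2 fun i _ => pow_ne_zero _ (hq0 i)
  have h4 : (∏ i, q i ^ E) * ∑ e, (κ e : ℂ) * ∏ i, z i ^ (e i : ℕ) = ∑ e, κ e • b e := by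
    rw [Finset.mul_sum]
    apply Finset.sum_congr rfl
    intro e _
    have h5 : (∏ i, q i ^ E) * ∏ i, z i ^ (e i : ℕ) = b e := by
      rw [← Finset.prod_mul_distrib]
      apply Finset.prod_congr rfl
      intro i _
      have h6 : q i ^ E = q i ^ (e i : ℕ) * q i ^ (E - (e i : ℕ)) := by
        rw [← pow_add]
        congr 1
        have := (e i).2
        omega
      rw [hpq i, h6, div_pow]
      have h7 := pow_ne_zero (e i : ℕ) (hq0 i)
      field_simp
    rw [← h5, Algebra.smul_def]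
    have h8 : (algebraMap ℚ ℂ) (κ e) = (κ e : ℂ) := rfl
    rw [h8]
    ring
  rw [hκ] at h4
  exact (mul_eq_zero.1 h4).resolve_left hprod

end Pool.Agent.Y640.FM
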