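import Mathlib
import Pool.Agent.Y640.FM.Alg
import Pool.Agent.Y640.FM.Span

set_option autoImplicit false

/-!
Straight-line computations with complex numbers: representation of the values and of the
gradients by few parameters, with bounds on the degrees.
-/

namespace Pool.Agent.Y640.FM

/-- values and gradients after one operation -/
lemma res_rep {m : ℕ} {D : Fin m → ℂ → ℂ} (hD : ∀ j, IsDer (D j)) {x y z : ℂ}
    (h : IsRes x y z) {T : Finset ℂ} {k : ℕ} (hx : Rep T k x) (hy : Rep T k y)
    (hDx : ∀ j, Rep T k (D j x)) (hDy : ∀ j, Rep T k (D j y)) :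
    Rep T (8 * k) z ∧ ∀ j, Rep T (8 * k) (D j z) := by
  rcases h with rfl | rfl | rfl | rfl
  · refine ⟨(hx.add hy).mono subset_rfl (by omega), fun j => ?_⟩
    rw [(hD j).add]
    exact ((hDx j).add (hDy j)).mono subset_rfl (by omega)
  · refine ⟨(hx.sub hy).mono subset_rfl (by omega), fun j => ?_⟩
    rw [(hD j).sub]
    exact ((hDx j).sub (hDy j)).mono subset_rfl (by omega)
  · refine ⟨(hx.mul hy).mono subset_rfl (by omega), fun j => ?_⟩
    rw [(hD j).mul]
    exact ((hx.mul (hDy j)).add ((hDx j).mul hy)).mono subset_rfl (by omega)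
  · refine ⟨(hx.div hy).mono subset_rfl (by omega), fun j => ?_⟩
    rw [(hD j).div]
    exact ((hy.inv.mul (hDx j)).add ((hx.mul (hy.inv.mul hy.inv)).neg.mul (hDy j))).mono
      subset_rfl (by omega)

/-- the gradient is a multiple of a vector of small degree over few numbers -/
def GoodD {m : ℕ} (D : Fin m → ℂ → ℂ) (ρ : Finset ℂ) (s : ℕ) (x : ℂ) : Prop :=
  ∃ (a : ℂ) (w : Fin m → ℂ), (∀ j, w j ∈ W ρ s) ∧ ∀ j, D j x = a * w j

lemma GoodD.mono {m : ℕ} {D : Fin m → ℂ → ℂ} {ρ ρ' : Finset ℂ} {s s' : ℕ} (h : ρ ⊆ ρ')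
    (hs : s ≤ s') {x : ℂ} (hx : GoodD D ρ s x) : GoodD D ρ' s' x := by
  obtain ⟨a, w, h1, h2⟩ := hx
  exact ⟨a, w, fun j => W_mono h hs (h1 j), h2⟩

theorem steps {m : ℕ} (D : Fin m → ℂ → ℂ) (hD : ∀ j, IsDer (D j)) (V : Fin m → ℂ)
    (hV : ∀ j l, D j (V l) = if l = j then 1 else 0) (n : ℕ) (g : ℕ → ℂ)
    (hg : ∀ s < n, ∃ x y, IsOp D V g s x ∧ IsOp D V g s y ∧ IsRes x y (g s))
    (out : Fin m → ℂ) (hout : ∀ i, IsOp D V g n (out i)) :
    ∃ T1 T2 : Finset ℂ, T1.card + T2.card ≤ n + 2 * m ∧ T2.card ≤ n + m ∧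
      (∀ l, Rep T1 (8 ^ n) (V l)) ∧ (∀ i j, Rep T1 (8 ^ n) (D j (out i))) ∧
      (∀ i j, D j (out i) ∈ W T2 (n + 1)) := by
  classical
  set V0 : Finset ℂ := Finset.univ.image V with hV0
  have hWV : ∀ l, V l ∈ V0 := fun l => Finset.mem_image_of_mem _ (Finset.mem_univ _)
  have key : ∀ s ≤ n, ∃ c ρ : Finset ℂ, c.card + ρ.card ≤ s ∧
      ∀ i < s, (Rep (c ∪ V0) (8 ^ s) (g i) ∧
        ∀ j, Rep (c ∪ V0) (8 ^ s) (D j (g i))) ∧ GoodD D ρ s (g i) := by
    intro s
    induction s with
    | zero => intro _; exact ⟨∅, ∅, by simp, fun i hi => absurd hi (by omega)⟩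
    | succ s ih =>
      intro hs
      obtain ⟨c, ρ, hcard, hinv⟩ := ih (by omega)
      obtain ⟨x, y, hx, hy, hr⟩ := hg s (by omega)
      have h8 : 1 ≤ 8 ^ s := Nat.one_le_pow _ _ (by norm_num)
      have h81 : 8 ^ (s + 1) = 8 * 8 ^ s := by ring
      obtain ⟨μ, ν, hμ, hder⟩ := res_der hD hr
      -- nonconstant operands are good
      have hop : ∀ z, IsOp D V g s z → ¬ (∀ j, D j z = 0) →
          (Rep (c ∪ V0) (8 ^ s) z ∧
            ∀ j, Rep (c ∪ V0) (8 ^ s) (D j z)) ∧ GoodD D ρ s z := by
        intro z hz hz0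
        rcases hz with h | ⟨l, rfl⟩ | ⟨i, hi, rfl⟩
        · exact absurd h hz0
        · refine ⟨⟨Rep.of_mem (self_mem_W (by simp [hWV l]) h8), fun j => ?_⟩, 1,
            fun j => if l = j then 1 else 0, fun j => ?_, fun j => ?_⟩
          · rw [hV]; split_ifs
            · exact Rep.one _ _
            · exact Rep.zero _ _
          · dsimp only
            split_ifs
            · exact one_mem_W _ _
            · exact Submodule.zero_mem _
          · rw [hV, one_mul]
        · exact hinv i hi
      have hmono : ∀ c' : Finset ℂ, c ⊆ c' → ∀ z, Rep (c ∪ V0) (8 ^ s) z →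
          Rep (c' ∪ V0) (8 ^ s) z := fun c' h z hz =>
        hz.mono (Finset.union_subset_union_left h) le_rfl
      -- reduce to the new element
      have step : ∀ c' ρ' : Finset ℂ, c ⊆ c' → ρ ⊆ ρ' → c'.card + ρ'.card ≤ s + 1 →
          Rep (c' ∪ V0) (8 ^ (s + 1)) (g s) →
          (∀ j, Rep (c' ∪ V0) (8 ^ (s + 1)) (D j (g s))) → GoodD D ρ' (s + 1) (g s) →
          ∃ c ρ : Finset ℂ, c.card + ρ.card ≤ s + 1 ∧
            ∀ i < s + 1, (Rep (c ∪ V0) (8 ^ (s + 1)) (g i) ∧
              ∀ j, Rep (c ∪ V0) (8 ^ (s + 1)) (D j (g i))) ∧ GoodD D ρ (s + 1) (g i) := by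
        intro c' ρ' h1 h2 h3 h4 h5 h6
        refine ⟨c', ρ', h3, fun i hi => ?_⟩
        rcases Nat.lt_succ_iff_lt_or_eq.1 hi with h | rfl
        · have hle : 8 ^ s ≤ 8 ^ (s + 1) := by omega
          exact ⟨⟨(hmono c' h1 _ (hinv i h).1.1).mono subset_rfl hle,
            fun j => (hmono c' h1 _ ((hinv i h).1.2 j)).mono subset_rfl hle⟩,
            (hinv i h).2.mono h2 (Nat.le_succ s)⟩
        · exact ⟨⟨h4, h5⟩, h6⟩
      by_cases hx0 : ∀ j, D j x = 0
      · by_cases hy0 : ∀ j, D j y = 0
        · have h0 : ∀ j, D j (g s) = 0 := by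
            intro j; rw [hder, hx0, hy0]; simp
          apply step (insert (g s) c) ρ (Finset.subset_insert _ _) subset_rfl
          · have := Finset.card_insert_le (g s) c
            omega
          · exact Rep.of_mem (self_mem_W (by simp) (by omega))
          · intro j; rw [h0]; exact Rep.zero _ _
          · exact ⟨0, 0, fun j => Submodule.zero_mem _, fun j => by rw [h0]; simp⟩
        · obtain ⟨⟨hy1, hy2⟩, a, w, hw, hyw⟩ := hop y hy hy0
          have hsub := Finset.subset_insert x c
          obtain ⟨h1, h2⟩ := res_rep hD hr (T := insert x c ∪ V0) (k := 8 ^ s)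
            (Rep.of_mem (self_mem_W (by simp) h8)) (hmono _ hsub _ hy1)
            (fun j => by rw [hx0]; exact Rep.zero _ _) (fun j => hmono _ hsub _ (hy2 j))
          rw [← h81] at h1 h2
          apply step (insert x c) ρ hsub subset_rfl _ h1 h2
          · refine ⟨ν * a, w, fun j => W_mono subset_rfl (Nat.le_succ s) (hw j), fun j => ?_⟩
            rw [hder, hx0, hyw]; ring
          · have := Finset.card_insert_le x c
            omega
      · obtain ⟨⟨hx1, hx2⟩, a, w, hw, hxw⟩ := hop x hx hx0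
        by_cases hy0 : ∀ j, D j y = 0
        · have hsub := Finset.subset_insert y c
          obtain ⟨h1, h2⟩ := res_rep hD hr (T := insert y c ∪ V0) (k := 8 ^ s)
            (hmono _ hsub _ hx1) (Rep.of_mem (self_mem_W (by simp) h8))
            (fun j => hmono _ hsub _ (hx2 j)) (fun j => by rw [hy0]; exact Rep.zero _ _)
          rw [← h81] at h1 h2
          apply step (insert y c) ρ hsub subset_rfl _ h1 h2
          · refine ⟨μ * a, w, fun j => W_mono subset_rfl (Nat.le_succ s) (hw j), fun j => ?_⟩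
            rw [hder, hy0, hxw]; ring
          · have := Finset.card_insert_le y c
            omega
        · obtain ⟨⟨hy1, hy2⟩, b, u, hu, hyu⟩ := hop y hy hy0
          obtain ⟨h1, h2⟩ := res_rep hD hr (T := c ∪ V0) (k := 8 ^ s) hx1 hy1 hx2 hy2
          rw [← h81] at h1 h2
          by_cases hμa : μ * a = 0
          · apply step c ρ subset_rfl subset_rfl (by omega) h1 h2
            refine ⟨ν * b, u, fun j => W_mono subset_rfl (Nat.le_succ s) (hu j), fun j => ?_⟩
            rw [hder, hxw, hyu, ← mul_assoc, hμa]; ring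
          · set r := ν * b / (μ * a) with hr'
            apply step c (insert r ρ) subset_rfl (Finset.subset_insert _ _) _ h1 h2
            · refine ⟨μ * a, fun j => w j + r * u j, fun j => ?_, fun j => ?_⟩
              · have hm1 : W ρ s ≤ W (insert r ρ) s := W_mono (Finset.subset_insert _ _) le_rfl
                have h3 : r * u j ∈ W (insert r ρ) (1 + s) :=
                  mul_mem_W (self_mem_W (by simp) le_rfl) (hm1 (hu j))
                have h4 : w j ∈ W (insert r ρ) (s + 1) :=
                  W_mono (Finset.subset_insert _ _) (Nat.le_succ s) (hw j)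
                rw [Nat.add_comm 1 s] at h3
                exact Submodule.add_mem _ h4 h3
              · have hr2 : μ * a * r = ν * b := by
                  rw [hr']; exact mul_div_cancel₀ _ hμa
                have hr3 : μ * (a * w j) + ν * (b * u j) = μ * a * w j + (ν * b) * u j := by ring
                rw [hder, hxw, hyu, hr3, ← hr2]
                ring
            · have := Finset.card_insert_le r ρ
              omega
  obtain ⟨c, ρ, hcard, hinv⟩ := key n le_rfl
  have h8 : 1 ≤ 8 ^ n := Nat.one_le_pow _ _ (by norm_num)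
  have hout2 : ∀ i, GoodD D ρ n (out i) := by
    intro i
    rcases hout i with h | ⟨l, h⟩ | ⟨t, ht, h⟩
    · exact ⟨0, 0, fun j => Submodule.zero_mem _, fun j => by rw [h]; simp⟩
    · refine ⟨1, fun j => if l = j then 1 else 0, fun j => ?_, fun j => ?_⟩
      · dsimp only
        split_ifs
        · exact one_mem_W _ _
        · exact Submodule.zero_mem _
      · rw [h, hV, one_mul]
    · rw [h]; exact (hinv t ht).2
  choose sg w hw hsg using hout2
  set S0 : Finset ℂ := Finset.univ.image sg with hS0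
  have hWc : V0.card ≤ m := by
    refine Finset.card_image_le.trans ?_
    simp
  have hTc : S0.card ≤ m := by
    refine Finset.card_image_le.trans ?_
    simp
  have h1 := Finset.card_union_le c V0
  have h2 := Finset.card_union_le ρ S0
  refine ⟨c ∪ V0, ρ ∪ S0, by omega, by omega, ?_, ?_, ?_⟩
  · intro l
    exact Rep.of_mem (self_mem_W (by simp [hWV l]) h8)
  · intro i j
    rcases hout i with h | ⟨l, h⟩ | ⟨t, ht, h⟩
    · rw [h j]; exact Rep.zero _ _
    · rw [h, hV]
      split_ifs
      · exact Rep.one _ _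
      · exact Rep.zero _ _
    · rw [h]; exact (hinv t ht).1.2 j
  · intro i j
    rw [hsg, Nat.add_comm]
    apply mul_mem_W
    · apply self_mem_W _ le_rfl
      exact Finset.mem_union_right _ (Finset.mem_image_of_mem _ (Finset.mem_univ _))
    · exact W_mono Finset.subset_union_left le_rfl (hw i j)

end Pool.Agent.Y640.FM
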