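import Mathlib
import Pool.Agent.Y640.FM.Ders
import Pool.Agent.Y640.FM.Steps
import Pool.Agent.Y640.FM.Free

set_option autoImplicit false

/-!
Short programs give polynomial relations of small degree between the entries of the matrix.
-/

namespace Pool.Agent.Y640.FM

open Pool.Agent.H683R2.FS

/-- a relation with bounded exponents is a polynomial relation -/
lemma not_free {σ : Type} [Fintype σ] [DecidableEq σ] {E : ℕ} {y : σ → ℂ}
    {κ : (σ → Fin (E + 1)) → ℚ}
    (hκ : κ ≠ 0) (h : ∑ e, (κ e : ℂ) * ∏ i, y i ^ (e i : ℕ) = 0) :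
    ¬ Free (Fintype.card σ * E) y := by
  classical
  intro hF
  let a : (σ → Fin (E + 1)) → (σ →₀ ℕ) := fun e =>
    Finsupp.equivFunOnFinite.symm (fun i => (e i : ℕ))
  have ha : Function.Injective a := by
    intro e e' h1
    funext i
    have h2 := Finsupp.equivFunOnFinite.symm.injective h1
    exact Fin.ext (congrFun h2 i)
  have h1 := hF (∑ e, MvPolynomial.monomial (a e) (κ e)) (by
      apply MvPolynomial.totalDegree_finsetSum_le
      intro e _
      refine (MvPolynomial.totalDegree_monomial_le _ _).trans ?_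
      rw [Finsupp.sum_fintype _ _ (fun i => rfl)]
      refine (Finset.sum_le_card_nsmul _ _ E ?_).trans ?_
      · intro i _
        have := (e i).2
        change (e i : ℕ) ≤ E
        omega
      · simp) (by
      rw [map_sum, ← h]
      apply Finset.sum_congr rfl
      intro e _
      rw [MvPolynomial.aeval_monomial, Finsupp.prod_fintype _ _ (fun i => pow_zero _)]
      rfl)
  apply hκ
  funext e
  have h2 := congrArg (MvPolynomial.coeff (a e)) h1
  rw [MvPolynomial.coeff_sum, MvPolynomial.coeff_zero, Finset.sum_eq_single e] at h2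
  · rw [MvPolynomial.coeff_monomial, if_pos rfl] at h2
    exact h2
  · intro e' _ hne
    rw [MvPolynomial.coeff_monomial, if_neg]
    intro h3
    exact hne (ha h3)
  · intro h3; exact absurd (Finset.mem_univ _) h3

/-- a relation which also involves generic elements gives a relation between the others -/
lemma split_relation {α β : Type} [Fintype α] [Fintype β] [DecidableEq α] [DecidableEq β] {E : ℕ}
    (K : Subfield ℂ) {V : α → ℂ} (hV : AlgebraicIndependent K V) {N : β → ℂ} (hN : ∀ p, N p ∈ K)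
    {κ : (α ⊕ β → Fin (E + 1)) → ℚ} (hκ : κ ≠ 0)
    (h : ∑ e, (κ e : ℂ) * ∏ i, (Sum.elim V N : α ⊕ β → ℂ) i ^ (e i : ℕ) = 0) :
    ∃ κ' : (β → Fin (E + 1)) → ℚ, κ' ≠ 0 ∧ ∑ f, (κ' f : ℂ) * ∏ i, N i ^ (f i : ℕ) = 0 := by
  classical
  let a : (α → Fin (E + 1)) → (α →₀ ℕ) := fun e =>
    Finsupp.equivFunOnFinite.symm (fun i => (e i : ℕ))
  have ha : Function.Injective a := by
    intro e e' h1
    funext i
    have h2 := Finsupp.equivFunOnFinite.symm.injective h1
    exact Fin.ext (congrFun h2 i)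
  let c : (α → Fin (E + 1)) → K := fun u =>
    ∑ f : β → Fin (E + 1), ((κ (Sum.elim u f) : ℚ) : K) * ∏ i, (⟨N i, hN i⟩ : K) ^ (f i : ℕ)
  have hc : ∀ u, ((c u : K) : ℂ) =
      ∑ f : β → Fin (E + 1), ((κ (Sum.elim u f) : ℚ) : ℂ) * ∏ i, N i ^ (f i : ℕ) := by
    intro u
    simp only [c]
    push_cast
    rfl
  have h1 : MvPolynomial.aeval V (∑ u, MvPolynomial.monomial (a u) (c u)) = 0 := by
    rw [map_sum, ← h, ← (Equiv.sumArrowEquivProdArrow α β (Fin (E + 1))).symm.sum_comp,
      Fintype.sum_prod_type]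
    apply Finset.sum_congr rfl
    intro u _
    rw [MvPolynomial.aeval_monomial, Finsupp.prod_fintype _ _ (fun i => pow_zero _)]
    have h2 : (algebraMap K ℂ) (c u) = ((c u : K) : ℂ) := rfl
    rw [h2, hc, Finset.sum_mul]
    apply Finset.sum_congr rfl
    intro f _
    rw [Fintype.prod_sum_type]
    have h3 : ((Equiv.sumArrowEquivProdArrow α β (Fin (E + 1))).symm (u, f)) = Sum.elim u f := rfl
    rw [h3]
    simp only [Sum.elim_inl, Sum.elim_inr]
    have h4 : ∏ i, V i ^ (a u) i = ∏ i, V i ^ (u i : ℕ) := rfl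
    rw [h4]
    ring
  have h2 := (algebraicIndependent_iff.1 hV) _ h1
  obtain ⟨e0, he0⟩ := Function.ne_iff.1 hκ
  set u0 : α → Fin (E + 1) := fun i => e0 (Sum.inl i) with hu0
  refine ⟨fun f => κ (Sum.elim u0 f), ?_, ?_⟩
  · intro h3
    apply he0
    have h4 := congrFun h3 (fun i => e0 (Sum.inr i))
    have h5 : (Sum.elim u0 (fun i => e0 (Sum.inr i)) : α ⊕ β → Fin (E + 1)) = e0 := by
      funext i
      cases i <;> rfl
    rw [h5] at h4
    exact h4
  · have h3 := congrArg (MvPolynomial.coeff (a u0)) h2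
    rw [MvPolynomial.coeff_sum, MvPolynomial.coeff_zero, Finset.sum_eq_single u0] at h3
    · rw [MvPolynomial.coeff_monomial, if_pos rfl] at h3
      rw [← hc, h3]
      rfl
    · intro u _ hne
      rw [MvPolynomial.coeff_monomial, if_neg]
      intro h4
      exact hne (ha h4)
    · intro h3; exact absurd (Finset.mem_univ _) h3

/-- the two sets of parameters of a program -/
theorem prog_rep {k m : ℕ} (K : Subfield ℂ) (V : Fin m → ℂ) (hV : AlgebraicIndependent K V)
    (N : Fin m × Fin m → ℂ) (hN : ∀ p, N p ∈ K) (ins : List (Ins m)) (out : Fin m → Opd m)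
    (hins : ∀ I ∈ ins, cpart I.2.1 ∈ K ∧ cpart I.2.2 ∈ K) (hout : ∀ i, cpart (out i) ∈ K)
    (hcorr : ∀ i, (out i).val V (slp V [] ins) = ∑ j, N (i, j) * V j)
    (r c : Fin k → Fin m) (hc : Function.Injective c) :
    ∃ T1 T2 : Finset ℂ, T1.card + T2.card ≤ ins.length + 2 * k ∧ T2.card ≤ ins.length + k ∧
      (∀ l, Rep T1 (8 ^ ins.length) (V (c l))) ∧
      (∀ p : Fin k × Fin k, Rep T1 (8 ^ ins.length) (N (r p.1, c p.2))) ∧
      (∀ p : Fin k × Fin k, N (r p.1, c p.2) ∈ W T2 (ins.length + 1)) := by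
  obtain ⟨D, hD⟩ := exists_partials K V hV
  have hDK : ∀ j x, x ∈ K → D j x = 0 := fun j x hx => (D j).map_algebraMap ⟨x, hx⟩
  obtain ⟨h1, h2⟩ := slp_steps K V D hD c ins hins
  obtain ⟨T1, T2, h3, h4, h5, h6, h7⟩ := steps (fun j x => D (c j) x)
    (fun j => isDer_derivation (D (c j)))
    (fun l => V (c l)) (fun j l => by rw [hD]; simp only [hc.eq_iff]) ins.length _ h1
    (fun i => (out (r i)).val V (slp V [] ins)) (fun i => h2 _ (hout (r i)))
  have hDN : ∀ i j, D j ((out i).val V (slp V [] ins)) = N (i, j) := by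
    intro i j
    rw [hcorr, map_sum, Finset.sum_eq_single j]
    · rw [(D j).leibniz, hDK j _ (hN _), hD]
      simp
    · intro b _ hb
      rw [(D j).leibniz, hDK j _ (hN _), hD, if_neg hb]
      simp
    · intro h; exact absurd (Finset.mem_univ _) h
  refine ⟨T1, T2, h3, h4, h5, ?_, ?_⟩
  · rintro ⟨i, j⟩
    have := h6 i j
    rwa [hDN] at this
  · rintro ⟨i, j⟩
    have := h7 i j
    rwa [hDN] at this

lemma num_ratio {M D t E s A : ℕ} (hM : 1 ≤ M) (hD : 1 ≤ D) (ht : (s + 1) * t ≤ s * M)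
    (hA : M * D ≤ A) (hE : A ^ s ≤ E) :
    (M * (E * D) + 1) ^ t < (E + 1) ^ M := by
  have hMD : 1 ≤ M * D := Nat.one_le_iff_ne_zero.2 (by positivity)
  have htM : t < M := by
    by_contra hge
    have : (s + 1) * M ≤ (s + 1) * t := Nat.mul_le_mul_left _ (by omega)
    nlinarith
  have h1 : M * (E * D) + 1 ≤ A * (E + 1) := by
    have h2 : M * (E * D) = (M * D) * E := by ring
    rw [h2, mul_add, mul_one]
    have h3 : M * D * E ≤ A * E := Nat.mul_le_mul_right _ hA
    omega
  have h2 : t ≤ s * (M - t) := by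
    rw [Nat.mul_sub]
    have : (s + 1) * t = s * t + t := by ring
    omega
  have h3 : A ^ t < (E + 1) ^ (M - t) := by
    calc A ^ t ≤ A ^ (s * (M - t)) := Nat.pow_le_pow_right (by omega) h2
      _ = (A ^ s) ^ (M - t) := pow_mul _ _ _
      _ < (E + 1) ^ (M - t) := Nat.pow_lt_pow_left (by omega) (by omega)
  calc (M * (E * D) + 1) ^ t ≤ (A * (E + 1)) ^ t := Nat.pow_le_pow_left h1 _
    _ = A ^ t * (E + 1) ^ t := mul_pow _ _ _
    _ < (E + 1) ^ (M - t) * (E + 1) ^ t := Nat.mul_lt_mul_of_pos_right h3 (by positivity)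
    _ = (E + 1) ^ M := by
        rw [← pow_add]
        congr 1
        omega

lemma num_full {M D t E : ℕ} (hM : 1 ≤ M) (hD : 1 ≤ D) (ht : t < M)
    (hE : (M * D) ^ M ≤ E) : (M * (E * D) + 1) ^ t < (E + 1) ^ M := by
  have hMD : 1 ≤ M * D := Nat.one_le_iff_ne_zero.2 (by positivity)
  have h1 : M * (E * D) + 1 ≤ (M * D) * (E + 1) := by
    have h2 : M * (E * D) = (M * D) * E := by ring
    rw [h2, mul_add, mul_one]
    omega
  have h2 : (M * D) ^ (M - 1) < E + 1 := by
    have : (M * D) ^ (M - 1) ≤ (M * D) ^ M := Nat.pow_le_pow_right hMD (by omega)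
    omega
  calc (M * (E * D) + 1) ^ t ≤ ((M * D) * (E + 1)) ^ t := Nat.pow_le_pow_left h1 _
    _ ≤ ((M * D) * (E + 1)) ^ (M - 1) := Nat.pow_le_pow_right
        (Nat.one_le_iff_ne_zero.2 (by positivity)) (by omega)
    _ = (M * D) ^ (M - 1) * (E + 1) ^ (M - 1) := mul_pow _ _ _
    _ < (E + 1) * (E + 1) ^ (M - 1) := Nat.mul_lt_mul_of_pos_right h2 (by positivity)
    _ = (E + 1) ^ M := by
        rw [← pow_succ']
        congr 1
        omega

/-- a generic vector, first regime -/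
theorem ops_full {k m : ℕ} (hk : 1 ≤ k) (K : Subfield ℂ) (V : Fin m → ℂ)
    (hV : AlgebraicIndependent K V)
    (N : Fin m × Fin m → ℂ) (hN : ∀ p, N p ∈ K) (ins : List (Ins m)) (out : Fin m → Opd m)
    (hins : ∀ I ∈ ins, cpart I.2.1 ∈ K ∧ cpart I.2.2 ∈ K) (hout : ∀ i, cpart (out i) ∈ K)
    (hcorr : ∀ i, (out i).val V (slp V [] ins) = ∑ j, N (i, j) * V j)
    (r c : Fin k → Fin m) (hc : Function.Injective c) (E : ℕ)
    (hE : (2 * k ^ 2 * 8 ^ (2 * k ^ 2)) ^ (2 * k ^ 2) ≤ E)
    (hfree : Free (k * k * E) (fun p : Fin k × Fin k => N (r p.1, c p.2))) :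
    2 * k ^ 2 - k ≤ ins.length := by
  by_contra hcon
  push Not at hcon
  have hsq : k ^ 2 = k * k := sq k
  have hmm : 1 ≤ k * k := Nat.one_le_iff_ne_zero.2 (by positivity)
  have hmm2 : k ≤ k * k := Nat.le_mul_self k
  obtain ⟨T1, T2, h3, h4, h5, h6, h7⟩ := prog_rep K V hV N hN ins out hins hout hcorr r c hc
  have hcardN : Fintype.card (Fin k × Fin k) = k * k := by simp
  have hle : ∀ M D : ℕ, M ≤ 2 * k ^ 2 → D ≤ 8 ^ (2 * k ^ 2) → 1 ≤ M * D → (M * D) ^ M ≤ E := by
    intro M D hM hD hMD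
    refine le_trans ?_ hE
    calc (M * D) ^ M ≤ (M * D) ^ (2 * k ^ 2) := Nat.pow_le_pow_right hMD hM
      _ ≤ (2 * k ^ 2 * 8 ^ (2 * k ^ 2)) ^ (2 * k ^ 2) :=
          Nat.pow_le_pow_left (Nat.mul_le_mul hM hD) _
  have hlen : ins.length ≤ 2 * k ^ 2 := by omega
  have h8 : 8 ^ ins.length ≤ 8 ^ (2 * k ^ 2) := Nat.pow_le_pow_right (by norm_num) hlen
  have h81 : 1 ≤ 8 ^ ins.length := Nat.one_le_pow _ _ (by norm_num)
  by_cases hT2 : T2.card < k * k
  · obtain ⟨κ, hκ, hrel⟩ := relation (fun p : Fin k × Fin k => N (r p.1, c p.2)) T2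
      (ins.length + 1) E (fun p => Rep.of_mem (h7 p)) (by
      rw [hcardN]
      apply num_full hmm (by omega) hT2
      apply hle _ _ (by omega)
      · have : 2 * k ^ 2 < 8 ^ (2 * k ^ 2) := Nat.lt_pow_self (by norm_num)
        omega
      · exact Nat.one_le_iff_ne_zero.2 (by positivity))
    have := not_free hκ hrel
    rw [hcardN] at this
    exact this hfree
  · have hT1 : T1.card < k + k * k := by omega
    have hcard : Fintype.card (Fin k ⊕ (Fin k × Fin k)) = k + k * k := by simp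
    obtain ⟨κ, hκ, hrel⟩ := relation (Sum.elim (fun l => V (c l))
      (fun p : Fin k × Fin k => N (r p.1, c p.2)) : Fin k ⊕ (Fin k × Fin k) → ℂ) T1
      (8 ^ ins.length) E (by
        intro i
        cases i with
        | inl l => exact h5 l
        | inr p => exact h6 p) (by
      rw [hcard]
      apply num_full (by omega) h81 hT1
      apply hle _ _ (by omega) h8
      exact Nat.one_le_iff_ne_zero.2 (by positivity))
    obtain ⟨κ', hκ', hrel'⟩ := split_relation K (hV.comp c hc) (fun p => hN _) hκ hrel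
    have := not_free hκ' hrel'
    rw [hcardN] at this
    exact this hfree

/-- a generic vector, second regime -/
theorem ops_ratio {k m s : ℕ} (hk : 1 ≤ k) (K : Subfield ℂ) (V : Fin m → ℂ)
    (hV : AlgebraicIndependent K V)
    (N : Fin m × Fin m → ℂ) (hN : ∀ p, N p ∈ K) (ins : List (Ins m)) (out : Fin m → Opd m)
    (hins : ∀ I ∈ ins, cpart I.2.1 ∈ K ∧ cpart I.2.2 ∈ K) (hout : ∀ i, cpart (out i) ∈ K)
    (hcorr : ∀ i, (out i).val V (slp V [] ins) = ∑ j, N (i, j) * V j)
    (r c : Fin k → Fin m) (hc : Function.Injective c) (E : ℕ)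
    (hE : (k ^ 4) ^ s ≤ E)
    (hfree : Free (k * k * E) (fun p : Fin k × Fin k => N (r p.1, c p.2))) :
    s * k ^ 2 / (s + 1) - k ≤ ins.length := by
  by_contra hcon
  push Not at hcon
  have hsq : k ^ 2 = k * k := sq k
  have hmm : 1 ≤ k * k := Nat.one_le_iff_ne_zero.2 (by positivity)
  obtain ⟨T1, T2, h3, h4, h5, h6, h7⟩ := prog_rep K V hV N hN ins out hins hout hcorr r c hc
  have hcardN : Fintype.card (Fin k × Fin k) = k * k := by simp
  have h10 : (s + 1) * (s * k ^ 2 / (s + 1)) ≤ s * k ^ 2 := Nat.mul_div_le _ _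
  have h12 : ins.length + k ≤ s * k ^ 2 / (s + 1) := by omega
  have h13 : s * k ^ 2 / (s + 1) ≤ k ^ 2 := by
    apply Nat.div_le_of_le_mul
    nlinarith
  obtain ⟨κ, hκ, hrel⟩ := relation (fun p : Fin k × Fin k => N (r p.1, c p.2)) T2
    (ins.length + 1) E (fun p => Rep.of_mem (h7 p)) (by
    rw [hcardN]
    apply num_ratio (s := s) (A := k ^ 4) hmm (by omega)
    · rw [← hsq]
      exact (Nat.mul_le_mul_left _ (h4.trans h12)).trans h10
    · have h11 : ins.length + 1 ≤ k * k := by omega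
      calc k * k * (ins.length + 1) ≤ k * k * (k * k) := Nat.mul_le_mul_left _ h11
        _ = k ^ 4 := by ring
    · exact hE)
  have := not_free hκ hrel
  rw [hcardN] at this
  exact this hfree

end Pool.Agent.Y640.FM
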