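import Mathlib
import Pool.Agent.H683R2.FourierA
import Pool.Agent.Y640.FM.Ders

set_option autoImplicit false

/-!
Generic vectors.
-/

namespace Pool.Agent.Y640.FM

open Pool.Agent.H683R2.FS

/-- `AlmostAll p` : there are countably many nonzero polynomials in `m` variables with complex
coefficients such that `p v` holds for all `v` at which none of them vanishes. -/
def AlmostAll {m : ℕ} (p : (Fin m → ℂ) → Prop) : Prop :=
  ∃ Z : Set (MvPolynomial (Fin m) ℂ), Z.Countable ∧ 0 ∉ Z ∧
    ∀ v : Fin m → ℂ, (∀ z ∈ Z, MvPolynomial.eval v z ≠ 0) → p v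

/-- the constants of a trace -/
def cst {m : ℕ} (τ : List (Ins m) × (Fin m → Opd m)) : Set ℂ :=
  ((fun I : Ins m => cpart I.2.1) '' {I | I ∈ τ.1}) ∪
    ((fun I : Ins m => cpart I.2.2) '' {I | I ∈ τ.1}) ∪ Set.range (fun i => cpart (τ.2 i))

lemma cst_countable {m : ℕ} (τ : List (Ins m) × (Fin m → Opd m)) : (cst τ).Countable := by
  have h : {I | I ∈ τ.1}.Countable := (List.finite_toSet τ.1).countable
  exact ((h.image _).union (h.image _)).union (Set.countable_range _)

/-- all constants of all traces of a program -/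
def allCst {m : ℕ} (P : Prog m) : Set ℂ :=
  ⋃ τ ∈ {τ | ∃ v regs, P.trace v regs = τ}, cst τ

lemma allCst_countable {m : ℕ} (P : Prog m) : (allCst P).Countable :=
  (trace_countable P).biUnion fun τ _ => cst_countable τ

lemma countable_closure {S : Set ℂ} (hS : S.Countable) : Countable (Subfield.closure S) := by
  rw [← Cardinal.mk_le_aleph0_iff]
  refine (Subfield.cardinalMk_closure_le_max _).trans ?_
  exact max_le hS.le_aleph0 le_rfl

/-- generic vectors are the complement of countably many hypersurfaces -/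
lemma exists_hyper {m : ℕ} {S : Set ℂ} (hS : S.Countable) :
    ∃ Z : Set (MvPolynomial (Fin m) ℂ), Z.Countable ∧ 0 ∉ Z ∧
      ∀ v : Fin m → ℂ, (∀ z ∈ Z, MvPolynomial.eval v z ≠ 0) →
        AlgebraicIndependent (Subfield.closure S) v := by
  have hK := countable_closure hS
  have hc : Countable (MvPolynomial (Fin m) (Subfield.closure S)) := by
    rw [← Cardinal.mk_le_aleph0_iff]
    refine MvPolynomial.cardinalMk_le_max.trans ?_
    exact max_le (max_le Cardinal.mk_le_aleph0 Cardinal.mk_le_aleph0) le_rfl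
  refine ⟨(MvPolynomial.map (Subfield.closure S).subtype) '' {z | z ≠ 0},
    (Set.to_countable _).image _, ?_, ?_⟩
  · rintro ⟨z, hz, h0⟩
    exact hz (MvPolynomial.map_injective _ (Subfield.closure S).subtype.injective
      (by rw [h0, map_zero]))
  · intro v hv
    rw [algebraicIndependent_iff]
    intro z hz
    by_contra hz0
    apply hv _ ⟨z, hz0, rfl⟩
    rw [MvPolynomial.eval_map]
    exact hz

/-- generic vectors exist -/
lemma AlmostAll.exists {m : ℕ} {p : (Fin m → ℂ) → Prop} (h : AlmostAll p) : ∃ v, p v := by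
  obtain ⟨Z, hZ, hZ0, hZv⟩ := h
  have hS : (⋃ z ∈ Z, ((z.coeffs : Finset ℂ) : Set ℂ)).Countable :=
    hZ.biUnion fun z _ => (Finset.finite_toSet _).countable
  set K := Subfield.closure (⋃ z ∈ Z, ((z.coeffs : Finset ℂ) : Set ℂ)) with hK
  have hKc : Cardinal.mk K ≤ Cardinal.aleph0 := by
    have := countable_closure hS
    exact Cardinal.mk_le_aleph0
  obtain ⟨ι, x, hx⟩ := exists_isTranscendenceBasis' K ℂ
  have hC : Cardinal.aleph0 < Cardinal.mk ℂ := by
    rw [Cardinal.mk_complex]
    exact Cardinal.aleph0_lt_continuum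
  have hcard : Cardinal.mk ℂ = Cardinal.mk ι :=
    IsAlgClosed.cardinal_eq_cardinal_transcendence_basis_of_aleph0_lt' x hx hKc hC
  have hinf : Infinite ι := by
    rw [Cardinal.infinite_iff, ← hcard]
    exact hC.le
  let e : Fin m ↪ ι := (Fin.valEmbedding).trans (Infinite.natEmbedding ι)
  have hind : AlgebraicIndependent K (fun i => x (e i)) := hx.1.comp e e.injective
  refine ⟨fun i => x (e i), hZv _ fun z hz h0 => ?_⟩
  have h1 : ∃ z' : MvPolynomial (Fin m) K, MvPolynomial.map K.subtype z' = z := by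
    have h2 : z ∈ Set.range (MvPolynomial.map (σ := Fin m) K.subtype) := by
      rw [MvPolynomial.mem_range_map_iff_coeffs_subset]
      intro c hc
      exact ⟨⟨c, Subfield.subset_closure (Set.mem_biUnion hz hc)⟩, rfl⟩
    exact h2
  obtain ⟨z', rfl⟩ := h1
  rw [MvPolynomial.eval_map] at h0
  have h3 := (algebraicIndependent_iff.1 hind) z' h0
  rw [h3, map_zero] at hz
  exact hZ0 hz

end Pool.Agent.Y640.FM
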