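import Mathlib

set_option autoImplicit false

/-!
A lower bound for Euler's function.
-/

namespace Pool.Agent.Y640.FM

lemma totient_prime_pow_bound (p n : ℕ) (hp : p.Prime) (hn : 0 < n) :
    (Odd (p ^ n) → p ^ n ≤ (p ^ n).totient ^ 2) ∧ p ^ n ≤ 2 * (p ^ n).totient ^ 2 := by
  obtain ⟨k, rfl⟩ : ∃ k, n = k + 1 := ⟨n - 1, by omega⟩
  rw [Nat.totient_prime_pow_succ hp]
  have hpk : 1 ≤ p ^ k := Nat.one_le_pow _ _ hp.pos
  rcases hp.eq_two_or_odd' with rfl | hodd
  · constructor
    · intro h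
      exact absurd h (by rw [Nat.not_odd_iff_even]; exact ⟨2 ^ k, by ring⟩)
    · have h1 : (2 : ℕ) - 1 = 1 := rfl
      rw [h1, mul_one, pow_succ]
      nlinarith
  · have hp3 : 3 ≤ p := by
      have := hp.two_le
      rcases hodd with ⟨t, ht⟩
      omega
    obtain ⟨q, rfl⟩ : ∃ q, p = q + 3 := ⟨p - 3, by omega⟩
    have h1 : q + 3 - 1 = q + 2 := by omega
    rw [h1]
    have h2 : (q + 3) ^ (k + 1) ≤ ((q + 3) ^ k * (q + 2)) ^ 2 := by
      have h3 : (q + 3) ≤ (q + 2) ^ 2 := by nlinarith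
      calc (q + 3) ^ (k + 1) = (q + 3) ^ k * (q + 3) := pow_succ _ _
        _ ≤ ((q + 3) ^ k) ^ 2 * (q + 2) ^ 2 := Nat.mul_le_mul (by nlinarith) h3
        _ = ((q + 3) ^ k * (q + 2)) ^ 2 := by ring
    exact ⟨fun _ => h2, by omega⟩

lemma totient_bound_aux (n : ℕ) : (Odd n → n ≤ n.totient ^ 2) ∧ n ≤ 2 * n.totient ^ 2 := by
  induction n using Nat.recOnPosPrimePosCoprime with
  | prime_pow p n hp hn => exact totient_prime_pow_bound p n hp hn
  | zero => simp
  | one => simp
  | coprime a b ha hb hab iha ihb =>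
    rw [Nat.totient_mul hab]
    constructor
    · intro hodd
      rw [Nat.odd_mul] at hodd
      have h1 := iha.1 hodd.1
      have h2 := ihb.1 hodd.2
      rw [mul_pow]
      exact Nat.mul_le_mul h1 h2
    · by_cases hao : Odd a
      · have h1 := iha.1 hao
        have h2 := ihb.2
        calc a * b ≤ a.totient ^ 2 * (2 * b.totient ^ 2) := Nat.mul_le_mul h1 h2
          _ = 2 * (a.totient * b.totient) ^ 2 := by ring
      · have hbo : Odd b := by
          by_contra hbe
          rw [Nat.not_odd_iff_even] at hao hbe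
          have := Nat.dvd_gcd hao.two_dvd hbe.two_dvd
          rw [hab] at this
          omega
        have h1 := iha.2
        have h2 := ihb.1 hbo
        calc a * b ≤ (2 * a.totient ^ 2) * b.totient ^ 2 := Nat.mul_le_mul h1 h2
          _ = 2 * (a.totient * b.totient) ^ 2 := by ring

theorem le_totient (n : ℕ) : n ≤ 2 * n.totient ^ 2 := (totient_bound_aux n).2

end Pool.Agent.Y640.FM
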