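import Mathlib

set_option autoImplicit false

/-!
Counting the zeros of bilinear forms modulo a prime.
-/

namespace Pool.Agent.Y640.FM

lemma cast_fin_inj {d : ℕ} {x y : Fin d} (h : ((x : ℕ) : ZMod d) = ((y : ℕ) : ZMod d)) : x = y := by
  rw [ZMod.natCast_eq_natCast_iff'] at h
  rw [Nat.mod_eq_of_lt x.2, Nat.mod_eq_of_lt y.2] at h
  exact Fin.ext h

/-- a linear form determines each coordinate with nonzero coefficient -/
lemma lin_det {k m d : ℕ} [Fact d.Prime] (c : Fin k → Fin m) (hc : Function.Injective c)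
    (L : Fin k → ZMod d) (j0 : Fin k) (hL : L j0 ≠ 0)
    (x y : Fin m → Fin d) (hxy : ∀ j, j ≠ c j0 → x j = y j)
    (h : ∑ j, L j * ((x (c j) : ℕ) : ZMod d) = ∑ j, L j * ((y (c j) : ℕ) : ZMod d)) :
    x = y := by
  have h1 : ∑ j, L j * (((x (c j) : ℕ) : ZMod d) - ((y (c j) : ℕ) : ZMod d)) = 0 := by
    simp only [mul_sub, Finset.sum_sub_distrib]
    rw [h, sub_self]
  rw [Finset.sum_eq_single j0] at h1
  · have h2 := (mul_eq_zero.1 h1).resolve_left hL
    funext j
    by_cases hj : j = c j0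
    · rw [hj]; exact cast_fin_inj (sub_eq_zero.1 h2)
    · exact hxy j hj
  · intro b _ hb
    rw [hxy (c b) (fun h => hb (hc h)), sub_self, mul_zero]
  · intro h; exact absurd (Finset.mem_univ _) h

theorem bilin_zeros {k m d : ℕ} (hd : d.Prime) (r c : Fin k → Fin m)
    (hr : Function.Injective r) (hc : Function.Injective c) (M : Fin k × Fin k → ZMod d)
    (hM : M ≠ 0) :
    (Finset.univ.filter (fun p : (Fin m → Fin d) × (Fin m → Fin d) =>
      ∑ i, ∑ j, M (i, j) * ((p.1 (r i) : ℕ) : ZMod d) * ((p.2 (c j) : ℕ) : ZMod d) = 0)).card ≤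
      2 * d ^ (2 * m - 1) := by
  classical
  have hfact : Fact d.Prime := ⟨hd⟩
  obtain ⟨⟨i0, j0⟩, h0⟩ := Function.ne_iff.1 hM
  simp only [Pi.zero_apply] at h0
  have hm : 0 < m := Fin.pos (r i0)
  let a : (Fin m → Fin d) → ZMod d := fun x => ∑ j, M (i0, j) * ((x (c j) : ℕ) : ZMod d)
  set S1 := Finset.univ.filter (fun p : (Fin m → Fin d) × (Fin m → Fin d) => a p.2 = 0) with hS1
  set S2 := Finset.univ.filter (fun p : (Fin m → Fin d) × (Fin m → Fin d) =>
    (∑ i, ∑ j, M (i, j) * ((p.1 (r i) : ℕ) : ZMod d) * ((p.2 (c j) : ℕ) : ZMod d) = 0) ∧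
      a p.2 ≠ 0) with hS2
  have hsub : (Finset.univ.filter (fun p : (Fin m → Fin d) × (Fin m → Fin d) =>
      ∑ i, ∑ j, M (i, j) * ((p.1 (r i) : ℕ) : ZMod d) * ((p.2 (c j) : ℕ) : ZMod d) = 0)) ⊆
      S1 ∪ S2 := by
    intro p hp
    rw [Finset.mem_union, hS1, hS2, Finset.mem_filter, Finset.mem_filter]
    by_cases ha : a p.2 = 0
    · exact Or.inl ⟨Finset.mem_univ _, ha⟩
    · exact Or.inr ⟨Finset.mem_univ _, (Finset.mem_filter.1 hp).2, ha⟩
  have hpow : d ^ m * d ^ (m - 1) = d ^ (2 * m - 1) := by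
    rw [← pow_add]
    congr 1
    omega
  have hc1 : S1.card ≤ d ^ (2 * m - 1) := by
    have h1 : S1.card ≤
        (Finset.univ : Finset ((Fin m → Fin d) × ({j : Fin m // j ≠ c j0} → Fin d))).card := by
      apply Finset.card_le_card_of_injOn (fun p => (p.1, fun j => p.2 j))
      · intro p _; exact Finset.mem_coe.2 (Finset.mem_univ _)
      · intro p hp q hq hpq
        simp only [Prod.mk.injEq] at hpq
        rw [hS1, Finset.coe_filter] at hp hq
        refine Prod.ext hpq.1 ?_
        apply lin_det c hc (fun j => M (i0, j)) j0 h0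
        · intro j hj
          exact congrFun hpq.2 ⟨j, hj⟩
        · exact hp.2.trans hq.2.symm
    refine h1.trans ?_
    rw [Finset.card_univ, Fintype.card_prod, Fintype.card_fun, Fintype.card_fun,
      Fintype.card_fin, Fintype.card_fin, Fintype.card_subtype_compl, Fintype.card_fin,
      Fintype.card_subtype_eq, hpow]
  have hc2 : S2.card ≤ d ^ (2 * m - 1) := by
    have h1 : S2.card ≤
        (Finset.univ : Finset ((Fin m → Fin d) × ({j : Fin m // j ≠ r i0} → Fin d))).card := by
      apply Finset.card_le_card_of_injOn (fun p => (p.2, fun j => p.1 j))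
      · intro p _; exact Finset.mem_coe.2 (Finset.mem_univ _)
      · intro p hp q hq hpq
        simp only [Prod.mk.injEq] at hpq
        rw [hS2, Finset.coe_filter] at hp hq
        refine Prod.ext ?_ hpq.1
        have e1 : ∀ x : (Fin m → Fin d) × (Fin m → Fin d),
            ∑ i, ∑ j, M (i, j) * ((x.1 (r i) : ℕ) : ZMod d) * ((x.2 (c j) : ℕ) : ZMod d) =
            ∑ i, (∑ j, M (i, j) * ((x.2 (c j) : ℕ) : ZMod d)) * ((x.1 (r i) : ℕ) : ZMod d) := by
          intro x
          apply Finset.sum_congr rfl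
          intro i _
          rw [Finset.sum_mul]
          apply Finset.sum_congr rfl
          intro j _
          ring
        apply lin_det r hr (fun i => ∑ j, M (i, j) * ((p.2 (c j) : ℕ) : ZMod d)) i0 hp.2.2
        · intro j hj
          exact congrFun hpq.2 ⟨j, hj⟩
        · have h2 := hp.2.1
          have h3 := hq.2.1
          rw [e1] at h2 h3
          rw [h2, hpq.1, h3]
    refine h1.trans ?_
    rw [Finset.card_univ, Fintype.card_prod, Fintype.card_fun, Fintype.card_fun,
      Fintype.card_fin, Fintype.card_fin, Fintype.card_subtype_compl, Fintype.card_fin,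
      Fintype.card_subtype_eq, hpow]
  calc _ ≤ (S1 ∪ S2).card := Finset.card_le_card hsub
    _ ≤ S1.card + S2.card := Finset.card_union_le _ _
    _ ≤ 2 * d ^ (2 * m - 1) := by omega

/-- pairs with a collision of exponents in a block -/
def Coll (B : ℕ) {k m d : ℕ} (r c : Fin k → Fin m)
    (p : (Fin m → Fin d) × (Fin m → Fin d)) : Prop :=
  ∃ e e' : Fin k × Fin k → Fin (B + 1), e ≠ e' ∧
    (∑ q : Fin k × Fin k, ((p.1 (r q.1) : ℕ) * (p.2 (c q.2) : ℕ)) * (e q : ℕ)) % d =
    (∑ q : Fin k × Fin k, ((p.1 (r q.1) : ℕ) * (p.2 (c q.2) : ℕ)) * (e' q : ℕ)) % d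

open Classical in
theorem card_coll {k m d B : ℕ} (hd : d.Prime) (hB : B < d) (r c : Fin k → Fin m)
    (hr : Function.Injective r) (hc : Function.Injective c) :
    (Finset.univ.filter (fun p : (Fin m → Fin d) × (Fin m → Fin d) => Coll B r c p)).card ≤
      ((B + 1) ^ (k * k)) ^ 2 * (2 * d ^ (2 * m - 1)) := by
  set Z : ((Fin k × Fin k → Fin (B + 1)) × (Fin k × Fin k → Fin (B + 1))) →
      Finset ((Fin m → Fin d) × (Fin m → Fin d)) := fun ee =>
    if ee.1 = ee.2 then ∅ else Finset.univ.filter (fun p =>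
      ∑ i, ∑ j, ((((ee.1 (i, j) : ℕ) : ZMod d) - ((ee.2 (i, j) : ℕ) : ZMod d))) *
        ((p.1 (r i) : ℕ) : ZMod d) * ((p.2 (c j) : ℕ) : ZMod d) = 0) with hZ
  have hZc : ∀ ee, (Z ee).card ≤ 2 * d ^ (2 * m - 1) := by
    intro ee
    rw [hZ]
    dsimp only
    split_ifs with h
    · simp
    · apply bilin_zeros hd r c hr hc
        (fun q => ((ee.1 q : ℕ) : ZMod d) - ((ee.2 q : ℕ) : ZMod d))
      intro h1
      apply h
      funext q
      have h2 := congrFun h1 q
      simp only [Pi.zero_apply] at h2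
      have h3 := sub_eq_zero.1 h2
      rw [ZMod.natCast_eq_natCast_iff'] at h3
      have h4 := (ee.1 q).2
      have h5 := (ee.2 q).2
      rw [Nat.mod_eq_of_lt (by omega), Nat.mod_eq_of_lt (by omega)] at h3
      exact Fin.ext h3
  have hsub : (Finset.univ.filter
      (fun p : (Fin m → Fin d) × (Fin m → Fin d) => Coll B r c p)) ⊆
      Finset.univ.biUnion Z := by
    intro p hp
    obtain ⟨e, e', hne, h⟩ := (Finset.mem_filter.1 hp).2
    rw [Finset.mem_biUnion]
    refine ⟨(e, e'), Finset.mem_univ _, ?_⟩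
    rw [hZ]
    dsimp only
    rw [if_neg hne, Finset.mem_filter]
    refine ⟨Finset.mem_univ _, ?_⟩
    rw [← ZMod.natCast_eq_natCast_iff'] at h
    push_cast at h
    rw [← sub_eq_zero, ← Finset.sum_sub_distrib, Fintype.sum_prod_type] at h
    rw [← h]
    apply Finset.sum_congr rfl
    intro i _
    apply Finset.sum_congr rfl
    intro j _
    ring
  refine (Finset.card_le_card hsub).trans ?_
  refine (Finset.card_biUnion_le_card_mul _ _ _ (fun ee _ => hZc ee)).trans ?_
  rw [Finset.card_univ, Fintype.card_prod, Fintype.card_fun, Fintype.card_fin, Fintype.card_prod,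
    Fintype.card_fin, sq]

end Pool.Agent.Y640.FM
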