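import Mathlib
import Pool.Agent.H683R2.FourierD
import Pool.Agent.Y640.FM.Hyper
import Pool.Agent.Y640.FM.Eff
import Pool.Agent.Y640.FM.Zeros
import Pool.Agent.Y640.FM.Totient

set_option autoImplicit false

/-!
Hard Fourier submatrices.
-/

namespace Pool.Agent.Y640.FM

open Pool.Agent.H683R2.FS

/-- `Needs L R C` : for every program `P` the following holds for almost all vectors `v` : if the
output of `P` on `v` is the product of the submatrix with rows `R` and columns `C` and `v`, then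
`P` executes at least `L` arithmetic operations on `v`. -/
def Needs {m d : ℕ} (L : ℕ) (R C : Fin m → Fin d) : Prop :=
  ∀ P : Prog m, AlmostAll fun v => P.run v = fourierProd R C v → L ≤ P.ops v

/-- a lower bound for straight-line programs at generic points, for matrices with a `k × k` block
without polynomial relations of small degree -/
def Lower (k m E L : ℕ) : Prop :=
  ∀ (K : Subfield ℂ) (V : Fin m → ℂ), AlgebraicIndependent K V →
    ∀ N : Fin m × Fin m → ℂ, (∀ p, N p ∈ K) → ∀ (ins : List (Ins m)) (out : Fin m → Opd m),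
    (∀ I ∈ ins, cpart I.2.1 ∈ K ∧ cpart I.2.2 ∈ K) → (∀ i, cpart (out i) ∈ K) →
    (∀ i, (out i).val V (slp V [] ins) = ∑ j, N (i, j) * V j) →
    ∀ r c : Fin k → Fin m, Function.Injective c →
    Free (k * k * E) (fun p : Fin k × Fin k => N (r p.1, c p.2)) → L ≤ ins.length

lemma lower_almost {k m E L : ℕ} (h : Lower k m E L) (N : Fin m × Fin m → ℂ)
    (r c : Fin k → Fin m) (hc : Function.Injective c)
    (hfree : Free (k * k * E) (fun p : Fin k × Fin k => N (r p.1, c p.2))) (P : Prog m) :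
    AlmostAll fun v => (P.run v = fun i => ∑ j, N (i, j) * v j) → L ≤ P.ops v := by
  have hS : (Set.range N ∪ allCst P).Countable :=
    (Set.countable_range _).union (allCst_countable _)
  obtain ⟨Z, hZ, hZ0, hZv⟩ := exists_hyper (m := m) hS
  refine ⟨Z, hZ, hZ0, fun v hv hrun => ?_⟩
  unfold Prog.run at hrun
  rw [runFrom_eq] at hrun
  unfold Prog.ops
  rw [opsFrom_eq]
  apply h _ v (hZv v hv) N (fun p => Subfield.subset_closure (Or.inl ⟨p, rfl⟩)) (P.trace v []).1
    (P.trace v []).2 _ _ (fun i => congrFun hrun i) r c hc hfree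
  · intro I hI
    constructor
    · apply Subfield.subset_closure
      right
      refine Set.mem_biUnion ⟨v, [], rfl⟩ ?_
      exact Or.inl (Or.inl ⟨I, hI, rfl⟩)
    · apply Subfield.subset_closure
      right
      refine Set.mem_biUnion ⟨v, [], rfl⟩ ?_
      exact Or.inl (Or.inr ⟨I, hI, rfl⟩)
  · intro i
    apply Subfield.subset_closure
    right
    refine Set.mem_biUnion ⟨v, [], rfl⟩ ?_
    exact Or.inr ⟨i, rfl⟩

theorem needs_of_free {k m d E L : ℕ} (h : Lower k m E L) (hd : 0 < d) (R C : Fin m → Fin d)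
    (r c : Fin k → Fin m) (hc : Function.Injective c)
    (hfree : Free (2 * (k * k * E))
      (fun p : Fin k × Fin k => om d ^ ((R (r p.1) : ℕ) * (C (c p.2) : ℕ)))) : Needs L R C := by
  intro P
  have hd0 : (0 : ℝ) < d := by exact_mod_cast hd
  have hs : (1 / (Real.sqrt d : ℂ)) ^ 2 = (((1 / (d : ℚ)) : ℚ) : ℂ) := by
    have h1 : ((Real.sqrt d : ℝ) : ℂ) ^ 2 = (d : ℂ) := by
      rw [← Complex.ofReal_pow, Real.sq_sqrt hd0.le]
      simp
    rw [div_pow, one_pow, h1]
    push_cast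
    rfl
  have hr : (1 / (d : ℚ)) ≠ 0 := by
    have : (d : ℚ) ≠ 0 := by exact_mod_cast hd.ne'
    exact one_div_ne_zero this
  have hfree2 : Free (k * k * E) (fun p : Fin k × Fin k =>
      (1 / (Real.sqrt d : ℂ)) * om d ^ ((R (r p.1) : ℕ) * (C (c p.2) : ℕ))) :=
    free_scale hr hs hfree
  obtain ⟨N, hN⟩ : ∃ N : Fin m × Fin m → ℂ, ∀ p, N p =
      (1 / (Real.sqrt d : ℂ)) * om d ^ ((R p.1 : ℕ) * (C p.2 : ℕ)) := ⟨_, fun p => rfl⟩
  have hfree3 : Free (k * k * E) (fun p : Fin k × Fin k => N (r p.1, c p.2)) := by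
    have h1 : (fun p : Fin k × Fin k => N (r p.1, c p.2)) = fun p : Fin k × Fin k =>
      (1 / (Real.sqrt d : ℂ)) * om d ^ ((R (r p.1) : ℕ) * (C (c p.2) : ℕ)) := by
      funext p
      rw [hN]
    rw [h1]
    exact hfree2
  obtain ⟨Z, hZ, hZ0, hZv⟩ := lower_almost h N r c hc hfree3 P
  refine ⟨Z, hZ, hZ0, fun v hv hrun => hZv v hv ?_⟩
  rw [hrun]
  funext i
  unfold fourierProd
  rw [Finset.mul_sum]
  apply Finset.sum_congr rfl
  intro j _
  rw [hN]
  unfold om
  ring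

/-- an increasing enumeration of `m` elements which contains given elements -/
lemma exists_enum {k m d : ℕ} (hkm : k ≤ m) (hmd : m ≤ d) (a : Fin k → Fin d)
    (ha : Function.Injective a) : ∃ (R : Fin m → Fin d) (r : Fin k → Fin m), StrictMono R ∧
      Function.Injective r ∧ ∀ i, R (r i) = a i := by
  classical
  obtain ⟨t, ht1, ht2⟩ := Finset.exists_superset_card_eq (s := Finset.univ.image a) (n := m)
    (by rw [Finset.card_image_of_injective _ ha, Finset.card_univ, Fintype.card_fin]; exact hkm)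
    (by rw [Fintype.card_fin]; exact hmd)
  have h1 : ∀ i, ∃ x : Fin m, t.orderEmbOfFin ht2 x = a i := by
    intro i
    have h2 : a i ∈ Set.range (t.orderEmbOfFin ht2) := by
      rw [Finset.range_orderEmbOfFin]
      exact ht1 (Finset.mem_image_of_mem _ (Finset.mem_univ _))
    exact h2
  choose r hr using h1
  refine ⟨t.orderEmbOfFin ht2, r, (t.orderEmbOfFin ht2).strictMono, ?_, hr⟩
  intro i j hij
  apply ha
  rw [← hr, ← hr, hij]

theorem exists_hard {k m d E L : ℕ} (hkm : k ≤ m) (hmd : m ≤ d) (h : Lower k m E L)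
    (hφ : (2 * (k * k * E) + 2) ^ (k * k) ≤ d.totient) : ∃ R C : Fin m → Fin d,
    StrictMono R ∧ StrictMono C ∧ Needs L R C := by
  set B := 2 * (k * k * E) with hB
  have hpos : 0 < (B + 2) ^ (k * k) := by positivity
  have hdpos : 0 < d := Nat.totient_pos.1 (by omega)
  have hle : (B + 2) ^ (k * k) ≤ d := hφ.trans (Nat.totient_le d)
  have hlt : ∀ e, e < k * k → (B + 2) ^ e < d := fun e he =>
    lt_of_lt_of_le (Nat.pow_lt_pow_right (by omega) he) hle
  obtain ⟨R, r, hR, hr, hRr⟩ := exists_enum hkm hmd (fun i : Fin k => (⟨(B + 2) ^ (k * (i : ℕ)),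
    hlt _ (Nat.mul_lt_mul_of_pos_left i.2 (Fin.pos i))⟩ : Fin d)) (by
      intro i j hij
      simp only [Fin.mk.injEq] at hij
      have h1 := Nat.pow_right_injective (by omega : 2 ≤ B + 2) hij
      exact Fin.ext (Nat.eq_of_mul_eq_mul_left (Fin.pos i) h1))
  obtain ⟨C, c, hC, hc, hCc⟩ := exists_enum hkm hmd (fun j : Fin k => (⟨(B + 2) ^ (j : ℕ),
    hlt _ (by have := j.2; nlinarith)⟩ : Fin d)) (by
      intro i j hij
      simp only [Fin.mk.injEq] at hij
      exact Fin.ext (Nat.pow_right_injective (by omega : 2 ≤ B + 2) hij))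
  refine ⟨R, C, hR, hC, ?_⟩
  apply needs_of_free h hdpos R C r c hc
  have hexp : (fun p : Fin k × Fin k => om d ^ ((R (r p.1) : ℕ) * (C (c p.2) : ℕ))) =
      fun p => om d ^ Nexp k (B + 2) p := by
    funext p
    congr 1
    rw [hRr, hCc]
    simp only [Nexp, finProdFinEquiv_apply_val]
    rw [← pow_add]
    congr 1
    ring
  rw [hexp]
  apply free_of_lt hdpos (om_prim hdpos.ne')
  · intro e he
    have h1 : ∀ p, e p < B + 2 := fun p => by have := he p; omega
    exact lt_of_lt_of_le (fexp_lt e h1) hφ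
  · intro e e' he he' h
    have h1 : ∀ p, e p < B + 2 := fun p => by have := he p; omega
    have h2 : ∀ p, e' p < B + 2 := fun p => by have := he' p; omega
    exact fexp_inj e e' h1 h2 h

/-- `easyPairs L m d` is the set of all pairs `(R, C)` of `m`-element subsets of `ℤ_d`, given by
their increasing enumerations, for which `Needs L R C` fails. -/
def easyPairs (L m d : ℕ) : Set ((Fin m → Fin d) × (Fin m → Fin d)) :=
  {p | StrictMono p.1 ∧ StrictMono p.2 ∧ ¬ Needs L p.1 p.2}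

theorem card_easy {k m d E L : ℕ} (hk : 1 ≤ k) (hkm : k ≤ m) (h : Lower k m E L)
    (hd : d.Prime) :
    (easyPairs L m d).ncard ≤ 2 * (2 * (k * k * E) + 2) ^ (2 * (k * k)) * d ^ (2 * m - 1) := by
  classical
  set B := 2 * (k * k * E) with hB
  by_cases hBd : B + 1 < d
  · have hsub : easyPairs L m d ⊆
        ((Finset.univ.filter (fun p : (Fin m → Fin d) × (Fin m → Fin d) =>
          Coll (B + 1) (Fin.castLE hkm) (Fin.castLE hkm) p) :
          Finset _) : Set ((Fin m → Fin d) × (Fin m → Fin d))) := by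
      rintro ⟨R, C⟩ ⟨_, _, hnh⟩
      rw [Finset.coe_filter]
      refine ⟨Finset.mem_univ _, ?_⟩
      by_contra hco
      apply hnh
      apply needs_of_free h hd.pos R C (Fin.castLE hkm) (Fin.castLE hkm)
        (Fin.castLE_injective hkm)
      have hne : Nonempty (Fin k × Fin k) := ⟨(⟨0, hk⟩, ⟨0, hk⟩)⟩
      apply free_of_mod hd (om_prim hd.ne_zero)
      intro e e' he he' h
      by_contra hee
      apply hco
      refine ⟨fun q => ⟨e q, Nat.lt_succ_of_le (he q)⟩,
        fun q => ⟨e' q, Nat.lt_succ_of_le (he' q)⟩, ?_, h⟩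
      intro h2
      apply hee
      ext q
      have := congrFun h2 q
      simpa using this
    have h1 := Set.ncard_le_ncard hsub (Finset.finite_toSet _)
    rw [Set.ncard_coe_finset] at h1
    refine h1.trans ((card_coll hd hBd _ _ (Fin.castLE_injective hkm)
      (Fin.castLE_injective hkm)).trans (le_of_eq ?_))
    have h2 : (((B + 1 + 1) ^ (k * k)) ^ 2 * (2 * d ^ (2 * m - 1))) =
        2 * ((B + 2) ^ (k * k)) ^ 2 * d ^ (2 * m - 1) := by ring
    rw [h2, ← pow_mul, Nat.mul_comm (k * k) 2]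
  · have h1 : (easyPairs L m d).ncard ≤
        (Set.univ : Set ((Fin m → Fin d) × (Fin m → Fin d))).ncard :=
      Set.ncard_le_ncard (Set.subset_univ _) Set.finite_univ
    rw [Set.ncard_univ, Nat.card_eq_fintype_card, Fintype.card_prod, Fintype.card_fun,
      Fintype.card_fin, Fintype.card_fin] at h1
    refine h1.trans ?_
    have h2 : d ^ m * d ^ m = d * d ^ (2 * m - 1) := by
      rw [← pow_add, ← pow_succ']
      congr 1
      omega
    rw [h2]
    apply Nat.mul_le_mul_right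
    have h3 : B + 2 ≤ (B + 2) ^ (2 * (k * k)) := by
      apply Nat.le_self_pow
      have : 1 ≤ k * k := Nat.one_le_iff_ne_zero.2 (by positivity)
      omega
    omega

/-! The two regimes -/

/-- exponent bound of the first regime -/
def EA (k : ℕ) : ℕ := (2 * k ^ 2 * 8 ^ (2 * k ^ 2)) ^ (2 * k ^ 2)

lemma lower_A {k m : ℕ} (hk : 1 ≤ k) : Lower k m (EA k) (2 * k ^ 2 - k) :=
  fun K V hV N hN ins out hins hout hcorr r c hc hfree =>
    ops_full hk K V hV N hN ins out hins hout hcorr r c hc (EA k) le_rfl hfree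

lemma lower_B {k m s : ℕ} (hk : 1 ≤ k) : Lower k m ((k ^ 4) ^ s) (s * k ^ 2 / (s + 1) - k) :=
  fun K V hV N hN ins out hins hout hcorr r c hc hfree =>
    ops_ratio hk K V hV N hN ins out hins hout hcorr r c hc ((k ^ 4) ^ s) le_rfl hfree

lemma base_A {m : ℕ} (hm : 1 ≤ m) : 2 * (m * m * EA m) + 2 ≤ 2 ^ (19 * m ^ 4) := by
  have h1 : 2 * m ^ 2 ≤ 2 ^ (2 * m ^ 2) := Nat.lt_two_pow_self.le
  have h2 : m ^ 2 ≤ 2 ^ (m ^ 2) := Nat.lt_two_pow_self.le
  have hm2 : 1 ≤ m ^ 2 := Nat.one_le_pow _ _ hm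
  have hm4 : m ^ 2 ≤ m ^ 4 := Nat.pow_le_pow_right hm (by norm_num)
  have hE : EA m ≤ 2 ^ (16 * m ^ 4) := by
    unfold EA
    have h3 : (8 : ℕ) ^ (2 * m ^ 2) = 2 ^ (6 * m ^ 2) := by
      rw [show (8 : ℕ) = 2 ^ 3 by norm_num, ← pow_mul]
      congr 1
      ring
    calc (2 * m ^ 2 * 8 ^ (2 * m ^ 2)) ^ (2 * m ^ 2)
        ≤ (2 ^ (2 * m ^ 2) * 2 ^ (6 * m ^ 2)) ^ (2 * m ^ 2) := by
          rw [h3]
          exact Nat.pow_le_pow_left (Nat.mul_le_mul_right _ h1) _
      _ = 2 ^ (16 * m ^ 4) := by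
          rw [← pow_add, ← pow_mul]
          congr 1
          ring
  have hE1 : 1 ≤ EA m := by
    unfold EA
    exact Nat.one_le_iff_ne_zero.2 (by positivity)
  have hmm : m * m = m ^ 2 := (sq m).symm
  calc 2 * (m * m * EA m) + 2 ≤ 4 * (m ^ 2 * EA m) := by
        rw [hmm]
        nlinarith
    _ ≤ 4 * (2 ^ (m ^ 2) * 2 ^ (16 * m ^ 4)) := by
        apply Nat.mul_le_mul_left
        exact Nat.mul_le_mul h2 hE
    _ = 2 ^ (2 + m ^ 2 + 16 * m ^ 4) := by
        rw [pow_add, pow_add]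
        ring
    _ ≤ 2 ^ (19 * m ^ 4) := by
        apply Nat.pow_le_pow_right (by norm_num)
        omega

lemma base_B {k s : ℕ} (hk : 1 ≤ k) :
    2 * (k * k * (k ^ 4) ^ s) + 2 ≤ (2 * k) ^ (4 * s + 2) := by
  have h1 : 1 ≤ k ^ (4 * s + 2) := Nat.one_le_pow _ _ hk
  have h2 : k * k * (k ^ 4) ^ s = k ^ (4 * s + 2) := by
    rw [← pow_mul, pow_add, sq]
    ring
  have h3 : 4 ≤ 2 ^ (4 * s + 2) := by
    calc 4 = 2 ^ 2 := by norm_num
      _ ≤ 2 ^ (4 * s + 2) := Nat.pow_le_pow_right (by norm_num) (by omega)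
  rw [h2, mul_pow]
  nlinarith

lemma sq_le_of {a b d : ℕ} (h : 2 * a ^ 2 ≤ b) (hb : b ≤ d) : a ≤ d.totient := by
  have h1 := le_totient d
  have h2 : a ^ 2 ≤ d.totient ^ 2 := by omega
  exact (Nat.pow_le_pow_iff_left (by norm_num)).1 h2

lemma needs_zero {m d : ℕ} (R C : Fin m → Fin d) : Needs 0 R C := fun _ =>
  ⟨∅, Set.countable_empty, fun h => h, fun _ _ _ => Nat.zero_le _⟩

lemma exists_mono {m d : ℕ} (hmd : m ≤ d) : StrictMono (Fin.castLE hmd) :=
  Fin.strictMono_castLE hmd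

theorem exists_A {k m d : ℕ} (hkm : k ≤ m) (hmd : m ≤ d) (hd : 2 ^ (40 * k ^ 6) ≤ d) :
    ∃ R C : Fin m → Fin d, StrictMono R ∧ StrictMono C ∧ Needs (2 * k ^ 2 - k) R C := by
  rcases Nat.eq_zero_or_pos k with rfl | hk
  · exact ⟨_, _, exists_mono hmd, exists_mono hmd, needs_zero _ _⟩
  · apply exists_hard hkm hmd (lower_A hk)
    apply sq_le_of _ hd
    have h1 := base_A hk
    have hm6 : 1 ≤ k ^ 6 := Nat.one_le_pow _ _ hk
    have h2 : (2 * (k * k * EA k) + 2) ^ (k * k) ≤ 2 ^ (19 * k ^ 6) := by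
      refine (Nat.pow_le_pow_left h1 _).trans ?_
      rw [← pow_mul]
      apply Nat.pow_le_pow_right (by norm_num)
      exact le_of_eq (by ring)
    calc 2 * ((2 * (k * k * EA k) + 2) ^ (k * k)) ^ 2 ≤ 2 * (2 ^ (19 * k ^ 6)) ^ 2 :=
          Nat.mul_le_mul_left _ (Nat.pow_le_pow_left h2 _)
      _ = 2 ^ (38 * k ^ 6 + 1) := by
          rw [← pow_mul, pow_succ]
          ring
      _ ≤ 2 ^ (40 * k ^ 6) := Nat.pow_le_pow_right (by norm_num) (by omega)

lemma two_le_pow {k : ℕ} (hk : 1 ≤ k) : 2 ≤ (2 * k) ^ (k ^ 2) := by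
  have hm2 : 1 ≤ k ^ 2 := Nat.one_le_pow _ _ hk
  calc 2 ≤ 2 * k := by omega
    _ ≤ (2 * k) ^ (k ^ 2) := Nat.le_self_pow (by omega) _

theorem exists_B {s k m d : ℕ} (hk : 1 ≤ k) (hkm : k ≤ m) (hmd : m ≤ d)
    (hd : (2 * k) ^ ((8 * s + 5) * k ^ 2) ≤ d) :
    ∃ R C : Fin m → Fin d, StrictMono R ∧ StrictMono C ∧
      Needs (s * k ^ 2 / (s + 1) - k) R C := by
  apply exists_hard hkm hmd (lower_B hk)
  apply sq_le_of _ hd
  have h1 := base_B (s := s) hk
  have h2 : (2 * (k * k * (k ^ 4) ^ s) + 2) ^ (k * k) ≤ (2 * k) ^ ((4 * s + 2) * k ^ 2) := by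
    refine (Nat.pow_le_pow_left h1 _).trans ?_
    rw [← pow_mul]
    exact le_of_eq (by congr 1; ring)
  calc 2 * ((2 * (k * k * (k ^ 4) ^ s) + 2) ^ (k * k)) ^ 2 ≤
      (2 * k) ^ (k ^ 2) * ((2 * k) ^ ((4 * s + 2) * k ^ 2)) ^ 2 :=
        Nat.mul_le_mul (two_le_pow hk) (Nat.pow_le_pow_left h2 _)
    _ = (2 * k) ^ ((8 * s + 5) * k ^ 2) := by
        rw [← pow_mul, ← pow_add]
        congr 1
        ring

theorem card_A {k m d : ℕ} (hkm : k ≤ m) (hd : d.Prime) :
    (easyPairs (2 * k ^ 2 - k) m d).ncard ≤ 2 ^ (40 * k ^ 6) * d ^ (2 * m - 1) := by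
  rcases Nat.eq_zero_or_pos k with rfl | hk
  · have h1 : easyPairs (2 * 0 ^ 2 - 0) m d = ∅ := by
      ext p
      simp only [easyPairs, Set.mem_empty_iff_false, iff_false]
      rintro ⟨_, _, h⟩
      exact h (needs_zero _ _)
    rw [h1, Set.ncard_empty]
    exact Nat.zero_le _
  · refine (card_easy hk hkm (lower_A hk) hd).trans ?_
    apply Nat.mul_le_mul_right
    have h1 := base_A hk
    have hm6 : 1 ≤ k ^ 6 := Nat.one_le_pow _ _ hk
    calc 2 * (2 * (k * k * EA k) + 2) ^ (2 * (k * k)) ≤ 2 * (2 ^ (19 * k ^ 4)) ^ (2 * (k * k)) :=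
          Nat.mul_le_mul_left _ (Nat.pow_le_pow_left h1 _)
      _ = 2 ^ (38 * k ^ 6 + 1) := by
          rw [← pow_mul, pow_succ]
          ring
      _ ≤ 2 ^ (40 * k ^ 6) := Nat.pow_le_pow_right (by norm_num) (by omega)

theorem card_B {s k m d : ℕ} (hk : 1 ≤ k) (hkm : k ≤ m) (hd : d.Prime) :
    (easyPairs (s * k ^ 2 / (s + 1) - k) m d).ncard ≤
      (2 * k) ^ ((8 * s + 5) * k ^ 2) * d ^ (2 * m - 1) := by
  refine (card_easy hk hkm (lower_B hk) hd).trans ?_
  apply Nat.mul_le_mul_right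
  have h1 := base_B (s := s) hk
  calc 2 * (2 * (k * k * (k ^ 4) ^ s) + 2) ^ (2 * (k * k)) ≤
      (2 * k) ^ (k ^ 2) * ((2 * k) ^ (4 * s + 2)) ^ (2 * (k * k)) :=
        Nat.mul_le_mul (two_le_pow hk) (Nat.pow_le_pow_left h1 _)
    _ = (2 * k) ^ ((8 * s + 5) * k ^ 2) := by
        rw [← pow_mul, ← pow_add]
        congr 1
        ring

end Pool.Agent.Y640.FM
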