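import Mathlib
import Pool.Agent.H683R2.FourierE

set_option autoImplicit false

/-!
The naive algorithm without superfluous additions.
-/

namespace Pool.Agent.Y640.FM

open Pool.Agent.H683R2.FS

noncomputable section

/-- one row; the first product is not added to anything -/
def rowQ {m : ℕ} (c : Fin m → ℂ) : List (Fin m) → ℕ → (ℕ → Opd m → Prog m) → Prog m
  | [], n, k => k n (.const 0)
  | j :: js, n, k => .arith .mul (.inp j) (.const (c j)) (rowP c js (n + 1) (.reg n) k)

/-- all rows -/
def allQ {m : ℕ} (c : Fin m → Fin m → ℂ) : List (Fin m) → ℕ → (Fin m → Opd m) → Prog m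
  | [], _, out => .halt out
  | i :: is, n, out => rowQ (c i) (List.finRange m) n
      (fun n' acc => allQ c is n' (Function.update out i acc))

lemma rowQ_run {m : ℕ} (c : Fin m → ℂ) (v : Fin m → ℂ) (js : List (Fin m)) (n : ℕ)
    (regs : List ℂ) (k : ℕ → Opd m → Prog m) (hl : regs.length = n) :
    ∃ (ext : List ℂ) (acc' : Opd m), ext.length = 2 * js.length - 1 ∧
      Stable (n + (2 * js.length - 1)) acc' ∧
      acc'.val v (regs ++ ext) = (js.map (fun j => v j * c j)).sum ∧
      (rowQ c js n k).runFrom v regs =
        (k (n + (2 * js.length - 1)) acc').runFrom v (regs ++ ext) ∧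
      (rowQ c js n k).opsFrom v regs =
        (k (n + (2 * js.length - 1)) acc').opsFrom v (regs ++ ext) + (2 * js.length - 1) := by
  cases js with
  | nil => exact ⟨[], .const 0, rfl, trivial, rfl, by simp [rowQ], by simp [rowQ]⟩
  | cons j js =>
    have hl1 : (regs ++ [v j * c j]).length = n + 1 := by simp [hl]
    obtain ⟨ext, acc', h1, h2, h3, h4, h5⟩ := rowP_run c v js (n + 1) (regs ++ [v j * c j])
      (.reg n) k hl1 (by show n < n + 1; omega)
    have hlen : n + 1 + 2 * js.length = n + (2 * (j :: js).length - 1) := by
      simp only [List.length_cons]; omega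
    rw [hlen] at h2 h4 h5
    refine ⟨[v j * c j] ++ ext, acc', ?_, h2, ?_, ?_, ?_⟩
    · simp only [List.length_append, List.length_cons, List.length_nil, h1]; omega
    · have e3 : regs ++ ([v j * c j] ++ ext) = regs ++ [v j * c j] ++ ext := by simp
      rw [e3, h3, List.map_cons, List.sum_cons]
      congr 1
      simp only [Opd.val]
      rw [List.getD_append_right _ _ _ _ (by omega), hl]
      simp
    · have e3 : regs ++ ([v j * c j] ++ ext) = regs ++ [v j * c j] ++ ext := by simp
      rw [e3, ← h4]
      rfl
    · have e3 : regs ++ ([v j * c j] ++ ext) = regs ++ [v j * c j] ++ ext := by simp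
      have e4 : (rowQ c (j :: js) n k).opsFrom v regs =
          (rowP c js (n + 1) (.reg n) k).opsFrom v (regs ++ [v j * c j]) + 1 := rfl
      rw [e3, e4, h5]
      simp only [List.length_cons]
      omega

lemma allQ_run {m : ℕ} (c : Fin m → Fin m → ℂ) (v : Fin m → ℂ) (is : List (Fin m)) :
    ∀ (n : ℕ) (regs : List ℂ) (out : Fin m → Opd m), regs.length = n → is.Nodup →
      (∀ i, Stable n (out i)) →
      ((allQ c is n out).runFrom v regs = fun i =>
        if i ∈ is then ∑ j, v j * c i j else (out i).val v regs) ∧
      (allQ c is n out).opsFrom v regs = (2 * m - 1) * is.length := by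
  induction is with
  | nil =>
    intro n regs out _ _ _
    constructor
    · funext i
      simp [allQ, Prog.runFrom]
    · simp [allQ, Prog.opsFrom]
  | cons i0 is ih =>
    intro n regs out hl hnd hst
    obtain ⟨ext, acc', h1, h2, h3, h4, h5⟩ := rowQ_run (c i0) v (List.finRange m) n regs
      (fun n' acc => allQ c is n' (Function.update out i0 acc)) hl
    have hnd' := List.nodup_cons.1 hnd
    have hlen : (regs ++ ext).length = n + (2 * (List.finRange m).length - 1) := by
      rw [List.length_append, hl, h1]
    have hst' : ∀ i, Stable (n + (2 * (List.finRange m).length - 1))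
        (Function.update out i0 acc' i) := by
      intro i
      by_cases hi : i = i0
      · rw [hi, Function.update_self]; exact h2
      · rw [Function.update_of_ne hi]; exact (hst i).mono (by omega)
    obtain ⟨h6, h7⟩ := ih _ (regs ++ ext) (Function.update out i0 acc') hlen hnd'.2 hst'
    have hsum : ((List.finRange m).map (fun j => v j * c i0 j)).sum = ∑ j, v j * c i0 j := by
      rw [← List.ofFn_eq_map, List.sum_ofFn]
    constructor
    · simp only [allQ]
      rw [h4, h6]
      funext i
      by_cases hi : i = i0
      · rw [hi, if_neg hnd'.1, Function.update_self, h3, hsum, if_pos List.mem_cons_self]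
      · rw [Function.update_of_ne hi]
        by_cases hi' : i ∈ is
        · rw [if_pos hi', if_pos (List.mem_cons_of_mem _ hi')]
        · rw [if_neg hi', if_neg (by
            rw [List.mem_cons]; push Not; exact ⟨hi, hi'⟩)]
          exact (hst i).val v regs ext hl
    · simp only [allQ]
      rw [h5, h7, List.length_finRange, List.length_cons]
      ring

/-- the naive algorithm -/
def direct : Alg := fun m d R C =>
  allQ (fun i j => (1 / (Real.sqrt d : ℂ)) *
    Complex.exp (-2 * Real.pi * Complex.I / d) ^ ((R i : ℕ) * (C j : ℕ)))
    (List.finRange m) 0 (fun _ => .const 0)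

lemma direct_spec {m d : ℕ} (R C : Fin m → Fin d) (v : Fin m → ℂ) :
    (direct m d R C).run v = fourierProd R C v ∧ (direct m d R C).ops v + m = 2 * m ^ 2 := by
  unfold direct Prog.run Prog.ops
  obtain ⟨h1, h2⟩ := allQ_run (fun i j => (1 / (Real.sqrt d : ℂ)) *
    Complex.exp (-2 * Real.pi * Complex.I / d) ^ ((R i : ℕ) * (C j : ℕ))) v (List.finRange m) 0 []
    (fun _ => .const 0) rfl (List.nodup_finRange m) (fun _ => trivial)
  constructor
  · rw [h1]
    funext i
    rw [if_pos (List.mem_finRange i)]
    unfold fourierProd
    rw [Finset.mul_sum]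
    apply Finset.sum_congr rfl
    intro j _
    ring
  · rw [h2, List.length_finRange]
    cases m with
    | zero => rfl
    | succ m =>
      have : 2 * (m + 1) - 1 = 2 * m + 1 := by omega
      rw [this]
      ring

end

end Pool.Agent.Y640.FM
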